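import Pool.Agent.J4.H86.HB.Defs
import Pool.Agent.W706.HIR.Final

/-!
Cut-off functions of small support near a point of a rectifiable curve.
-/

set_option autoImplicit false

open Filter Topology MeasureTheory Metric Set

namespace Pool.Agent.J4.H86.HB

open Pool.Agent.W402.HI Pool.Agent.W706.HIR

/-- the Cauchy-Riemann operator and dilations -/
theorem D_mul {F : ℂ → ℂ} (hF : Differentiable ℝ F) (e z : ℂ) :
    D (fun z => F (e * z)) z = (starRingEnd ℂ) e * D F (e * z) := by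
  have h1 : HasFDerivAt (fun z : ℂ => e * z) (e • (ContinuousLinearMap.id ℝ ℂ)) z := by
    have := (hasFDerivAt_id (𝕜 := ℝ) z).const_mul e
    simpa using this
  have h2 : HasFDerivAt (fun z => F (e * z))
      ((fderiv ℝ F (e * z)).comp (e • (ContinuousLinearMap.id ℝ ℂ))) z :=
    (hF (e * z)).hasFDerivAt.comp z h1
  unfold D
  rw [h2.fderiv]
  set L := fderiv ℝ F (e * z) with hL
  have e1 : (L.comp (e • (ContinuousLinearMap.id ℝ ℂ))) 1 = L e := by simp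
  have e2 : (L.comp (e • (ContinuousLinearMap.id ℝ ℂ))) Complex.I = L (e * Complex.I) := by simp
  rw [e1, e2]
  have e3 : L e = (e.re : ℂ) * L 1 + (e.im : ℂ) * L Complex.I := by
    have h3 : e = e.re • (1:ℂ) + e.im • Complex.I := by
      rw [Complex.real_smul, Complex.real_smul, mul_one]
      exact (Complex.re_add_im e).symm
    conv_lhs => rw [h3]
    rw [map_add, map_smul, map_smul, Complex.real_smul, Complex.real_smul]
  have e4 : L (e * Complex.I) = -(e.im : ℂ) * L 1 + (e.re : ℂ) * L Complex.I := by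
    have h3 : e * Complex.I = (-e.im) • (1:ℂ) + e.re • Complex.I := by
      rw [Complex.real_smul, Complex.real_smul, mul_one]
      conv_lhs => rw [← Complex.re_add_im e]
      push_cast
      ring_nf
      rw [Complex.I_sq]
      ring
    rw [h3, map_add, map_smul, map_smul, Complex.real_smul, Complex.real_smul]
    push_cast
    ring
  rw [e3, e4]
  have e5 : (starRingEnd ℂ) e = (e.re : ℂ) - (e.im : ℂ) * Complex.I := by
    apply Complex.ext <;> simp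
  rw [e5]
  ring_nf
  rw [Complex.I_sq]
  ring

theorem tst_mul_left {F : ℂ → ℂ} (hF : Tst F) {e : ℂ} (he : e ≠ 0) : Tst (fun z => F (e * z)) := by
  obtain ⟨h1, ⟨C, hC⟩, h3⟩ := hF
  refine ⟨?_, ⟨C * ‖e • (ContinuousLinearMap.id ℝ ℂ)‖, fun z => ?_⟩, ?_⟩
  · exact h1.comp (differentiable_id.const_mul e)
  · have g1 : HasFDerivAt (fun z : ℂ => e * z) (e • (ContinuousLinearMap.id ℝ ℂ)) z := by
      have := (hasFDerivAt_id (𝕜 := ℝ) z).const_mul e
      simpa using this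
    have g2 : HasFDerivAt (fun z => F (e * z))
        ((fderiv ℝ F (e * z)).comp (e • (ContinuousLinearMap.id ℝ ℂ))) z :=
      (h1 (e * z)).hasFDerivAt.comp z g1
    rw [g2.fderiv]
    refine (ContinuousLinearMap.opNorm_comp_le _ _).trans ?_
    exact mul_le_mul_of_nonneg_right (hC _) (norm_nonneg _)
  · exact h3.comp_homeomorph (Homeomorph.mulLeft₀ e he)

theorem tst_bdd {F : ℂ → ℂ} (hF : Tst F) : ∃ B : ℝ, 0 ≤ B ∧ ∀ z, ‖F z‖ ≤ B := by
  obtain ⟨B, hB⟩ := hF.supp.exists_bound_of_continuous hF.diff.continuous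
  exact ⟨B, (norm_nonneg _).trans (hB 0), hB⟩

theorem D_prod {F G : ℂ → ℂ} (hF : Differentiable ℝ F) (hG : Differentiable ℝ G) (z : ℂ) :
    D (fun z => F z * G z) z = F z * D G z + G z * D F z := by
  unfold D
  rw [fderiv_fun_mul (hF z) (hG z)]
  simp only [add_apply, smul_apply, smul_eq_mul]
  ring

theorem tst_prod {F G : ℂ → ℂ} (hF : Tst F) (hG : Tst G) : Tst (fun z => F z * G z) := by
  obtain ⟨B, hB0, hB⟩ := tst_bdd hF
  obtain ⟨B', hB'0, hB'⟩ := tst_bdd hG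
  obtain ⟨C, hC⟩ := hF.bd
  obtain ⟨C', hC'⟩ := hG.bd
  refine ⟨hF.diff.mul hG.diff, ⟨B * C' + B' * C, fun z => ?_⟩, hF.supp.mul_right⟩
  rw [fderiv_fun_mul (hF.diff z) (hG.diff z)]
  refine (norm_add_le _ _).trans ?_
  rw [norm_smul, norm_smul]
  have := hB z
  have := hB' z
  have := hC z
  have := hC' z
  gcongr

/-- cut-off functions adapted to the curve and to the growth function -/
structure Cut (E : Set ℂ) (N : ℂ → ℝ) (F : ℂ → ℂ) : Prop where
  tst : Tst F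
  off : ∀ z, D F z ≠ 0 → z ∉ E
  bd : ∃ M : ℝ, ∀ z, ‖D F z‖ * (1 + N z) ≤ M

theorem Cut.prod {E : Set ℂ} {N : ℂ → ℝ} (hN : ∀ z, 0 ≤ N z) {F G : ℂ → ℂ} (hF : Cut E N F)
    (hG : Cut E N G) : Cut E N (fun z => F z * G z) := by
  obtain ⟨B, hB0, hB⟩ := tst_bdd hF.tst
  obtain ⟨B', hB'0, hB'⟩ := tst_bdd hG.tst
  obtain ⟨M, hM⟩ := hF.bd
  obtain ⟨M', hM'⟩ := hG.bd
  refine ⟨tst_prod hF.tst hG.tst, fun z hz => ?_, ⟨B * M' + B' * M, fun z => ?_⟩⟩
  · rw [D_prod hF.tst.diff hG.tst.diff] at hz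
    by_cases h1 : D F z = 0
    · by_cases h2 : D G z = 0
      · rw [h1, h2] at hz
        simp at hz
      · exact hG.off z h2
    · exact hF.off z h1
  · rw [D_prod hF.tst.diff hG.tst.diff]
    have h0 : 0 ≤ 1 + N z := by
      have := hN z
      linarith
    calc ‖F z * D G z + G z * D F z‖ * (1 + N z)
        ≤ (‖F z‖ * ‖D G z‖ + ‖G z‖ * ‖D F z‖) * (1 + N z) := by
          refine mul_le_mul_of_nonneg_right ((norm_add_le _ _).trans ?_) h0
          rw [norm_mul, norm_mul]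
      _ = ‖F z‖ * (‖D G z‖ * (1 + N z)) + ‖G z‖ * (‖D F z‖ * (1 + N z)) := by ring
      _ ≤ B * M' + B' * M := by
          have h1 := hM z
          have h2 := hM' z
          have h3 := hB z
          have h4 := hB' z
          have h5 : 0 ≤ ‖D G z‖ * (1 + N z) := mul_nonneg (norm_nonneg _) h0
          have h6 : 0 ≤ ‖D F z‖ * (1 + N z) := mul_nonneg (norm_nonneg _) h0
          gcongr

theorem D_supp {F : ℂ → ℂ} {z : ℂ} (hz : D F z ≠ 0) : z ∈ tsupport F := by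
  by_contra h
  apply hz
  have h1 : F =ᶠ[𝓝 z] 0 := notMem_tsupport_iff_eventuallyEq.1 h
  unfold D
  rw [h1.fderiv_eq]
  simp

/-- half planes -/
theorem half (e : ℂ) (he : ‖e‖ = 1) (γ : ℝ → ℂ) (L : NNReal) (hγ : LipschitzWith L γ)
    (N : ℂ → ℝ) (A : ℕ) (hN0 : ∀ z, 0 ≤ N z) (hNc : ContinuousOn N (γ '' Icc 0 1)ᶜ)
    (hNg : ∀ w ∈ γ '' Icc 0 1, ∀ d : ℂ, ‖d‖ = 1 → TangentAt (γ '' Icc 0 1) w d → ConeGrowth N w d A)
    (α β : ℝ) (hαβ : α < β) :
    ∃ (F : ℂ → ℂ) (c : ℝ), c ∈ Ioo α β ∧ Cut (γ '' Icc 0 1) N F ∧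
      (∀ z ∈ tsupport F, (e * z).re ≤ c) ∧
      (∀ p ∈ γ '' Icc 0 1, (e * p).re < c → F p ≠ 0 ∧ ∀ᶠ z in 𝓝 p, D F z = 0) := by
  have he0 : e ≠ 0 := by
    intro h0
    rw [h0, norm_zero] at he
    exact zero_ne_one he
  obtain ⟨γ', hγ'⟩ : ∃ γ' : ℝ → ℂ, γ' = fun t => e * γ t := ⟨_, rfl⟩
  have hL : LipschitzWith L γ' := by
    rw [hγ']
    refine LipschitzWith.of_dist_le_mul fun s t => ?_
    have h1 : dist (e * γ s) (e * γ t) = dist (γ s) (γ t) := by
      rw [dist_eq_norm, dist_eq_norm, ← mul_sub, norm_mul, he, one_mul]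
    rw [h1]
    exact hγ.dist_le_mul s t
  obtain ⟨c, hc, Z, dir, hgl⟩ := Pool.Agent.W816.HI.mainB1 γ' L hL α β hαβ
  obtain ⟨E', hE'⟩ : ∃ E' : Set ℂ, E' = γ' '' Set.Icc 0 1 := ⟨_, rfl⟩
  have hmemE' : ∀ z, e⁻¹ * z ∈ γ '' Set.Icc 0 1 → z ∈ E' := by
    rintro z ⟨t, ht, h⟩
    rw [hE', hγ']
    refine ⟨t, ht, ?_⟩
    simp only
    rw [h, mul_inv_cancel_left₀ he0]
  have hmemE : ∀ z, z ∈ E' → e⁻¹ * z ∈ γ '' Set.Icc 0 1 := by
    intro z hz
    rw [hE', hγ'] at hz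
    obtain ⟨t, ht, rfl⟩ := hz
    refine ⟨t, ht, ?_⟩
    simp only
    rw [inv_mul_cancel_left₀ he0]
  have hmul : ∀ p ∈ γ '' Icc 0 1, e * p ∈ E' := by
    intro p hp
    refine hmemE' _ ?_
    rw [inv_mul_cancel_left₀ he0]
    exact hp
  rw [← hE'] at hgl
  have hcomp : IsCompact E' := by
    rw [hE']
    exact isCompact_Icc.image hL.continuous
  set N' : ℂ → ℝ := fun z => N (e⁻¹ * z) with hN'
  have hN'0 : ∀ z, 0 ≤ N' z := fun z => hN0 _
  have hN'c : ContinuousOn N' E'ᶜ := by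
    refine hNc.comp (continuous_const.mul continuous_id).continuousOn ?_
    intro z hz h
    exact hz (hmemE' z h)
  have hcg : ∀ w ∈ Z, ConeGrowth N' w (dir w) A := by
    intro w hw
    have hwE : w ∈ E' := ((hgl.1 w).1 hw).1
    obtain ⟨hd1, -, htan⟩ := hgl.2 w hw
    rw [hE', hγ'] at htan
    have ht := Pool.Agent.W287.HI.C3.tangent_rot he htan
    have h1 := hNg (e⁻¹ * w) (hmemE w hwE) (e⁻¹ * dir w)
      (by rw [norm_mul, norm_inv, he, inv_one, one_mul, hd1]) ht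
    exact Pool.Agent.W287.HI.C3.cone_rot he (N := N) (fun z => rfl) h1
  obtain ⟨F₁, hF1, hs1, hD1, ⟨M1, hM1⟩, hp1⟩ :=
    Pool.Agent.W402.HI.C1.main E' hcomp c Z dir hgl N' A hN'0 hN'c hcg
  have hts : tsupport (fun z => F₁ (e * z)) = (fun z => e * z) ⁻¹' tsupport F₁ := by
    have := tsupport_comp_eq_preimage F₁ (Homeomorph.mulLeft₀ e he0)
    exact this
  have hDn : ∀ z, ‖D (fun z => F₁ (e * z)) z‖ = ‖D F₁ (e * z)‖ := by
    intro z
    rw [D_mul hF1.diff, norm_mul, RCLike.norm_conj, he, one_mul]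
  have hD0 : ∀ z, D (fun z => F₁ (e * z)) z = 0 ↔ D F₁ (e * z) = 0 := by
    intro z
    rw [← norm_eq_zero, hDn, norm_eq_zero]
  have hM10 : ∀ z, ‖D F₁ z‖ * (1 + N' z) ≤ |M1| * |z.re - c| := fun z =>
    (hM1 z).trans (mul_le_mul_of_nonneg_right (le_abs_self _) (abs_nonneg _))
  obtain ⟨R, hR⟩ := hF1.supp.isBounded.exists_norm_le
  refine ⟨fun z => F₁ (e * z), c, hc, ⟨tst_mul_left hF1 he0, ?_, ⟨|M1| * (|R| + |c|), ?_⟩⟩, ?_, ?_⟩
  · intro z hz h
    refine hD1 (e * z) ?_ (hmul z h)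
    intro h0
    exact hz ((hD0 z).2 h0)
  · intro z
    rw [hDn]
    by_cases h0 : D F₁ (e * z) = 0
    · rw [h0, norm_zero, zero_mul]
      positivity
    · have h1 := hM10 (e * z)
      have h2 : N' (e * z) = N z := by
        rw [hN']
        simp only
        rw [inv_mul_cancel_left₀ he0]
      rw [h2] at h1
      refine h1.trans ?_
      have h3 := hR _ (D_supp h0)
      have h4 := Complex.abs_re_le_norm (e * z)
      have h5 : |(e * z).re - c| ≤ |R| + |c| := by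
        calc |(e * z).re - c| ≤ |(e * z).re| + |c| := abs_sub _ _
          _ ≤ |R| + |c| := by
            have := le_abs_self R
            linarith
      gcongr
  · intro z hz
    rw [hts] at hz
    rcases hs1 _ hz with h | h
    · exact h.le
    · exact (((hgl.1 _).1 h).2).le
  · intro p hp hpc
    obtain ⟨h1, h2⟩ := hp1 (e * p) (hmul p hp) hpc
    refine ⟨h1, ?_⟩
    have h3 : Tendsto (fun z => e * z) (𝓝 p) (𝓝 (e * p)) :=
      (continuous_const.mul continuous_id).tendsto p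
    filter_upwards [h3.eventually h2] with z hz
    exact (hD0 z).2 hz

/-- small boxes -/
theorem box (γ : ℝ → ℂ) (L : NNReal) (hγ : LipschitzWith L γ)
    (N : ℂ → ℝ) (A : ℕ) (hN0 : ∀ z, 0 ≤ N z) (hNc : ContinuousOn N (γ '' Icc 0 1)ᶜ)
    (hNg : ∀ w ∈ γ '' Icc 0 1, ∀ d : ℂ, ‖d‖ = 1 → TangentAt (γ '' Icc 0 1) w d → ConeGrowth N w d A)
    (μ : ℂ) (hμ : μ ∈ γ '' Icc 0 1) (r : ℝ) (hr : 0 < r) :
    ∃ F : ℂ → ℂ, Cut (γ '' Icc 0 1) N F ∧ (∀ z ∈ tsupport F, ‖z - μ‖ < r) ∧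
      F μ ≠ 0 ∧ ∀ᶠ z in 𝓝 μ, D F z = 0 := by
  have key : ∀ e : ℂ, ‖e‖ = 1 → ∃ F : ℂ → ℂ, Cut (γ '' Icc 0 1) N F ∧
      (∀ z ∈ tsupport F, (e * (z - μ)).re ≤ r / 2) ∧ F μ ≠ 0 ∧ ∀ᶠ z in 𝓝 μ, D F z = 0 := by
    intro e he
    obtain ⟨F, c, hc, h1, h2, h3⟩ := half e he γ L hγ N A hN0 hNc hNg ((e * μ).re + r / 4)
      ((e * μ).re + r / 2) (by linarith)
    refine ⟨F, h1, fun z hz => ?_, ?_⟩
    · have h4 := h2 z hz
      have h5 : (e * (z - μ)).re = (e * z).re - (e * μ).re := by rw [mul_sub, Complex.sub_re]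
      rw [h5]
      have := hc.2
      linarith
    · exact h3 μ hμ (by have := hc.1; linarith)
  obtain ⟨F₁, a1, a2, a3, a4⟩ := key 1 (by simp)
  obtain ⟨F₂, b1, b2, b3, b4⟩ := key (-1) (by simp)
  obtain ⟨F₃, c1, c2, c3, c4⟩ := key Complex.I (by simp)
  obtain ⟨F₄, d1, d2, d3, d4⟩ := key (-Complex.I) (by simp)
  have hts : ∀ F G : ℂ → ℂ, tsupport (fun z => F z * G z) ⊆ tsupport F ∩ tsupport G :=
    fun F G => subset_inter (tsupport_mul_subset_left) (tsupport_mul_subset_right)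
  refine ⟨fun z => (F₁ z * F₂ z) * (F₃ z * F₄ z), (a1.prod hN0 b1).prod hN0 (c1.prod hN0 d1), ?_,
    ?_, ?_⟩
  · intro z hz
    have h1 := hts _ _ hz
    have h2 := hts _ _ h1.1
    have h3 := hts _ _ h1.2
    have e1 := a2 z h2.1
    have e2 := b2 z h2.2
    have e3 := c2 z h3.1
    have e4 := d2 z h3.2
    rw [one_mul] at e1
    rw [neg_mul, one_mul, Complex.neg_re] at e2
    have g3 : (Complex.I * (z - μ)).re = -(z - μ).im := by simp
    have g4 : (-Complex.I * (z - μ)).re = (z - μ).im := by simp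
    rw [g3] at e3
    rw [g4] at e4
    have h4 : ‖z - μ‖ ^ 2 = (z - μ).re ^ 2 + (z - μ).im ^ 2 := by
      rw [← Complex.normSq_eq_norm_sq, Complex.normSq_apply]
      ring
    have h5 : (z - μ).re ^ 2 ≤ (r / 2) ^ 2 := by
      apply sq_le_sq'
      · linarith
      · linarith
    have h6 : (z - μ).im ^ 2 ≤ (r / 2) ^ 2 := by
      apply sq_le_sq'
      · linarith
      · linarith
    have h7 : ‖z - μ‖ ^ 2 < r ^ 2 := by
      rw [h4]
      nlinarith
    exact lt_of_pow_lt_pow_left₀ 2 hr.le h7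
  · exact mul_ne_zero (mul_ne_zero a3 b3) (mul_ne_zero c3 d3)
  · filter_upwards [a4, b4, c4, d4] with z h1 h2 h3 h4
    rw [D_prod (tst_prod a1.tst b1.tst).diff (tst_prod c1.tst d1.tst).diff,
      D_prod a1.tst.diff b1.tst.diff, D_prod c1.tst.diff d1.tst.diff, h1, h2, h3, h4]
    simp

end Pool.Agent.J4.H86.HB
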