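import Pool.Agent.W402.HI.Defs

/-!
Definitions for MP_f981b0_an.AlmostReducedCompressions: tame operators on Banach spaces.
-/

set_option autoImplicit false

open Metric Set

namespace Pool.Agent.J4.H86.HB

open Pool.Agent.W402.HI

/-- `Z` is, up to a small operator, the compression of an operator `S` to a complemented subspace which almost
reduces `S`; the resolvent of `S` exists in the open set `U` off a rectifiable curve, grows at most polynomially at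
the curve, and `U` meets the spectrum of `Z`. -/
def Tame {X : Type} [NormedAddCommGroup X] [NormedSpace ℂ X] (Z : X →L[ℂ] X) : Prop :=
  ∃ (Y : Type) (_ : NormedAddCommGroup Y) (_ : NormedSpace ℂ Y) (_ : CompleteSpace Y)
    (J : X →L[ℂ] Y) (Q : Y →L[ℂ] X) (S : Y →L[ℂ] Y) (K : X →L[ℂ] X)
    (γ : ℝ → ℂ) (L : NNReal) (U : Set ℂ) (C : ℝ) (k : ℕ),
    Q.comp J = ContinuousLinearMap.id ℂ X ∧ Z = Q.comp (S.comp J) + K ∧ ApproxDecay K ∧
    ApproxDecay (S * J.comp Q - J.comp Q * S) ∧ LipschitzWith L γ ∧ IsOpen U ∧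
    (∀ z ∈ U, z ∉ γ '' Icc 0 1 → z ∈ resolventSet ℂ S ∧
      ‖resolvent S z‖ ≤ C / infDist z (γ '' Icc 0 1) ^ k) ∧
    ∃ c ∈ U, c ∈ spectrum ℂ Z

/-- `Z` on `X` is linked to `Z₁` on `X₁`: `A Z = Z₁ A`, `Z B = B Z₁` with `A` of dense range, `B` injective -/
def Linked {X X₁ : Type} [NormedAddCommGroup X] [NormedSpace ℂ X] [NormedAddCommGroup X₁]
    [NormedSpace ℂ X₁] (Z : X →L[ℂ] X) (Z₁ : X₁ →L[ℂ] X₁) : Prop :=
  ∃ (A : X →L[ℂ] X₁) (B : X₁ →L[ℂ] X), DenseRange A ∧ Function.Injective B ∧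
    A.comp Z = Z₁.comp A ∧ Z.comp B = B.comp Z₁

/-- `Z` is linked to a compact operator or to a tame operator on some nonzero Banach space -/
def Good {X : Type} [NormedAddCommGroup X] [NormedSpace ℂ X] (Z : X →L[ℂ] X) : Prop :=
  ∃ (X₁ : Type) (_ : NormedAddCommGroup X₁) (_ : NormedSpace ℂ X₁) (_ : CompleteSpace X₁)
    (Z₁ : X₁ →L[ℂ] X₁), Nontrivial X₁ ∧ Linked Z Z₁ ∧ (IsCompactOperator Z₁ ∨ Tame Z₁)

/-- PIECE IDEAL: the operators with small approximation numbers form an ideal -/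
def P_IDEAL : Prop :=
  (∀ (X Y : Type) [NormedAddCommGroup X] [NormedSpace ℂ X] [NormedAddCommGroup Y] [NormedSpace ℂ Y]
    (K : X →L[ℂ] X) (A : X →L[ℂ] Y) (B : Y →L[ℂ] X), ApproxDecay K → ApproxDecay (A.comp (K.comp B))) ∧
  (∀ (X : Type) [NormedAddCommGroup X] [NormedSpace ℂ X] (K L : X →L[ℂ] X), ApproxDecay K →
    ApproxDecay L → ApproxDecay (K + L))

/-- PIECE LINK: Hoover's lemma -/
def P_LINK : Prop :=
  ∀ (X X₁ : Type) [NormedAddCommGroup X] [NormedSpace ℂ X] [CompleteSpace X]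
    [NormedAddCommGroup X₁] [NormedSpace ℂ X₁] [CompleteSpace X₁] (Z : X →L[ℂ] X) (Z₁ : X₁ →L[ℂ] X₁),
    Nontrivial X₁ → Linked Z Z₁ → (IsScalar Z₁ ∨ HasHyp Z₁) → IsScalar Z ∨ HasHyp Z

/-- PIECE POLY: algebraic relations with coefficients in the bicommutant -/
def P_POLY : Prop :=
  ∀ (X : Type) [NormedAddCommGroup X] [NormedSpace ℂ X] [CompleteSpace X] (T : X →L[ℂ] X)
    (n : ℕ) (Z : ℕ → (X →L[ℂ] X)), 1 ≤ n →
    (∀ j < n, ∀ Q : X →L[ℂ] X, Q * T = T * Q → Q * Z j = Z j * Q) →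
    (∀ j < n, IsScalar (Z j) ∨ HasHyp (Z j)) →
    (IsScalar (T ^ n + ∑ j ∈ Finset.range n, Z j * T ^ j) ∨
      HasHyp (T ^ n + ∑ j ∈ Finset.range n, Z j * T ^ j)) → IsScalar T ∨ HasHyp T

/-- PIECE LOC: the local separation theorem -/
def P_LOC : Prop :=
  ∀ (X : Type) [NormedAddCommGroup X] [NormedSpace ℂ X] [CompleteSpace X] (T : X →L[ℂ] X)
    (γ : ℝ → ℂ) (L : NNReal) (U : Set ℂ), LipschitzWith L γ → IsOpen U →
    (∀ z ∈ U, z ∉ γ '' Icc 0 1 → z ∈ resolventSet ℂ T) → (spectrum ℂ T ∩ U).Nontrivial →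
    (∃ A : ℕ, ∀ w ∈ U, w ∈ γ '' Icc 0 1 → ∀ d : ℂ, ‖d‖ = 1 → TangentAt (γ '' Icc 0 1) w d →
      ConeGrowth (fun z => ‖resolvent T z‖) w d A) → HasHyp T

/-- PIECE TAME -/
def P_TAME : Prop :=
  ∀ (X : Type) [NormedAddCommGroup X] [NormedSpace ℂ X] [CompleteSpace X] (Z : X →L[ℂ] X),
    Tame Z → IsScalar Z ∨ HasHyp Z

end Pool.Agent.J4.H86.HB
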