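import Pool.Agent.J4.H86.HB.Defs

/-!
Piece P_IDEAL: the operators with small approximation numbers form an ideal.
-/

set_option autoImplicit false

namespace Pool.Agent.J4.H86.HB

open Pool.Agent.W402.HI

theorem ideal_mul (X Y : Type) [NormedAddCommGroup X] [NormedSpace ℂ X] [NormedAddCommGroup Y]
    [NormedSpace ℂ Y] (K : X →L[ℂ] X) (A : X →L[ℂ] Y) (B : Y →L[ℂ] X) (hK : ApproxDecay K) :
    ApproxDecay (A.comp (K.comp B)) := by
  obtain ⟨C, ε, hε, h⟩ := hK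
  refine ⟨‖A‖ * C * ‖B‖, ε, hε, fun m hm => ?_⟩
  obtain ⟨G, hG, hr, hn⟩ := h m hm
  have := hG
  have hle : LinearMap.range ((A.comp (G.comp B) : Y →L[ℂ] Y) : Y →ₗ[ℂ] Y) ≤
      (LinearMap.range (G : X →ₗ[ℂ] X)).map (A : X →ₗ[ℂ] Y) := by
    rintro _ ⟨y, rfl⟩
    exact ⟨G (B y), ⟨B y, rfl⟩, rfl⟩
  refine ⟨A.comp (G.comp B), Submodule.finiteDimensional_of_le hle, ?_, ?_⟩
  · exact (Submodule.finrank_mono hle).trans ((Submodule.finrank_map_le _ _).trans hr)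
  · have h1 : A.comp (K.comp B) - A.comp (G.comp B) = A.comp ((K - G).comp B) := by
      ext y
      simp
    rw [h1]
    calc ‖A.comp ((K - G).comp B)‖ ≤ ‖A‖ * (‖K - G‖ * ‖B‖) :=
          (ContinuousLinearMap.opNorm_comp_le _ _).trans
            (mul_le_mul_of_nonneg_left (ContinuousLinearMap.opNorm_comp_le _ _) (norm_nonneg _))
      _ ≤ ‖A‖ * (C / (m : ℝ) ^ ε * ‖B‖) :=
          mul_le_mul_of_nonneg_left (mul_le_mul_of_nonneg_right hn (norm_nonneg _)) (norm_nonneg _)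
      _ = ‖A‖ * C * ‖B‖ / (m : ℝ) ^ ε := by ring

theorem half_bound {C ε δ : ℝ} (hδ : 0 < δ) (hδε : δ ≤ ε) {m : ℕ} (hm : 2 ≤ m) :
    C / ((m / 2 : ℕ) : ℝ) ^ ε ≤ |C| * 3 ^ ε / (m : ℝ) ^ δ := by
  have hε : 0 < ε := hδ.trans_le hδε
  have hm0 : (0 : ℝ) < m := by
    have : 0 < m := by omega
    exact_mod_cast this
  have hm1 : (1 : ℝ) ≤ m := by
    have : 1 ≤ m := by omega
    exact_mod_cast this
  have h1 : (m : ℝ) / 3 ≤ ((m / 2 : ℕ) : ℝ) := by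
    have h2 : m ≤ 3 * (m / 2) := by omega
    have h3 : (m : ℝ) ≤ 3 * ((m / 2 : ℕ) : ℝ) := by exact_mod_cast h2
    linarith
  have h0 : (0 : ℝ) < ((m : ℝ) / 3) ^ ε := Real.rpow_pos_of_pos (by positivity) _
  have h4 : ((m : ℝ) / 3) ^ ε ≤ ((m / 2 : ℕ) : ℝ) ^ ε :=
    Real.rpow_le_rpow (by positivity) h1 hε.le
  calc C / ((m / 2 : ℕ) : ℝ) ^ ε ≤ |C| / ((m / 2 : ℕ) : ℝ) ^ ε :=
        div_le_div_of_nonneg_right (le_abs_self C) (h0.le.trans h4)
    _ ≤ |C| / ((m : ℝ) / 3) ^ ε := div_le_div_of_nonneg_left (abs_nonneg _) h0 h4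
    _ = |C| * 3 ^ ε / (m : ℝ) ^ ε := by
        rw [Real.div_rpow hm0.le (by norm_num)]
        field_simp
    _ ≤ |C| * 3 ^ ε / (m : ℝ) ^ δ := by
        apply div_le_div_of_nonneg_left (by positivity) (Real.rpow_pos_of_pos hm0 _)
        exact Real.rpow_le_rpow_of_exponent_le hm1 hδε

theorem ideal_add (X : Type) [NormedAddCommGroup X] [NormedSpace ℂ X] (K L : X →L[ℂ] X)
    (hK : ApproxDecay K) (hL : ApproxDecay L) : ApproxDecay (K + L) := by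
  obtain ⟨C, ε, hε, h⟩ := hK
  obtain ⟨D, δ, hδ, h'⟩ := hL
  have hmin : 0 < min ε δ := lt_min hε hδ
  refine ⟨|C| * 3 ^ ε + |D| * 3 ^ δ + ‖K + L‖, min ε δ, hmin, fun m hm => ?_⟩
  have hC : 0 ≤ |C| * (3 : ℝ) ^ ε := by positivity
  have hD : 0 ≤ |D| * (3 : ℝ) ^ δ := by positivity
  rcases Nat.lt_or_ge m 2 with hm2 | hm2
  · obtain rfl : m = 1 := by omega
    have hr0 : LinearMap.range ((0 : X →L[ℂ] X) : X →ₗ[ℂ] X) = ⊥ := by
      rw [ContinuousLinearMap.toLinearMap_zero, LinearMap.range_zero]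
    refine ⟨0, ?_, ?_, ?_⟩
    · rw [hr0]; infer_instance
    · rw [hr0, finrank_bot]; omega
    · rw [sub_zero, Nat.cast_one, Real.one_rpow, div_one]
      linarith
  · obtain ⟨G, hG, hr, hn⟩ := h (m / 2) (by omega)
    obtain ⟨G', hG', hr', hn'⟩ := h' (m / 2) (by omega)
    have := hG
    have := hG'
    have hle : LinearMap.range ((G + G' : X →L[ℂ] X) : X →ₗ[ℂ] X) ≤
        LinearMap.range (G : X →ₗ[ℂ] X) ⊔ LinearMap.range (G' : X →ₗ[ℂ] X) := by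
      rintro _ ⟨y, rfl⟩
      exact Submodule.add_mem_sup ⟨y, rfl⟩ ⟨y, rfl⟩
    refine ⟨G + G', Submodule.finiteDimensional_of_le hle, ?_, ?_⟩
    · refine (Submodule.finrank_mono hle).trans ((Submodule.finrank_add_le_finrank_add_finrank _ _).trans ?_)
      omega
    · have h1 : K + L - (G + G') = (K - G) + (L - G') := by abel
      rw [h1]
      have hmp : (0 : ℝ) ≤ ‖K + L‖ / (m : ℝ) ^ (min ε δ) := by positivity
      calc ‖(K - G) + (L - G')‖ ≤ ‖K - G‖ + ‖L - G'‖ := norm_add_le _ _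
        _ ≤ |C| * 3 ^ ε / (m : ℝ) ^ (min ε δ) + |D| * 3 ^ δ / (m : ℝ) ^ (min ε δ) :=
            add_le_add (hn.trans (half_bound hmin (min_le_left _ _) hm2))
              (hn'.trans (half_bound hmin (min_le_right _ _) hm2))
        _ ≤ |C| * 3 ^ ε / (m : ℝ) ^ (min ε δ) + |D| * 3 ^ δ / (m : ℝ) ^ (min ε δ) +
              ‖K + L‖ / (m : ℝ) ^ (min ε δ) := le_add_of_nonneg_right hmp
        _ = _ := by ring

theorem ideal : P_IDEAL := ⟨fun X Y _ _ _ _ K A B h => ideal_mul X Y K A B h,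
  fun X _ _ K L h h' => ideal_add X K L h h'⟩

end Pool.Agent.J4.H86.HB
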