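import Pool.Agent.J4.H86.DZ.Idx
import Pool.Agent.J4.H86.HB.Defs
import Pool.Agent.H307R3.RO.Lom

/-!
The Schur complement argument on Banach spaces (compare `DZ.Idx`).
-/

set_option autoImplicit false

open Filter Topology Metric Set

namespace Pool.Agent.J4.H86.HB

open Pool.Agent.W402.HI

variable {X : Type} [NormedAddCommGroup X] [NormedSpace ℂ X] [CompleteSpace X]

/-- finite rank operators have finite spectrum: the version needed -/
theorem finite_bad (Φ : X →L[ℂ] X) (hΦ : FiniteDimensional ℂ (LinearMap.range (Φ : X →ₗ[ℂ] X))) :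
    {c : ℂ | ¬ IsUnit (1 - c • Φ)}.Finite := by
  set V := LinearMap.range (Φ : X →ₗ[ℂ] X) with hV
  have hcomp : IsCompactOperator Φ := Pool.Agent.W991.HI.E5.compact_of_finite Φ hΦ
  let T : Module.End ℂ V := (Φ : X →ₗ[ℂ] X).restrict (p := V) (q := V) (fun x _ => ⟨x, rfl⟩)
  have hfin : {μ : ℂ | Module.End.HasEigenvalue T μ}.Finite := by
    have h1 : {μ : ℂ | Module.End.HasEigenvalue T μ} ⊆ spectrum ℂ T := by
      intro μ hμ
      exact hμ.mem_spectrum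
    exact (Module.End.finite_spectrum T).subset h1
  have hsub : {c : ℂ | ¬ IsUnit (1 - c • Φ)} ⊆ (fun μ : ℂ => μ⁻¹) '' {μ : ℂ | Module.End.HasEigenvalue T μ} := by
    intro c hc
    have hc' : ¬ IsUnit (1 - c • Φ) := hc
    have hc0 : c ≠ 0 := by
      rintro rfl
      apply hc'
      rw [zero_smul, sub_zero]
      exact isUnit_one
    refine ⟨c⁻¹, ?_, inv_inv c⟩
    have hsp : c⁻¹ ∈ spectrum ℂ Φ := by
      rw [spectrum.mem_iff]
      intro hu
      apply hc'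
      have h1 : (1 : X →L[ℂ] X) - c • Φ = c • (algebraMap ℂ (X →L[ℂ] X) c⁻¹ - Φ) := by
        rw [smul_sub, Algebra.algebraMap_eq_smul_one, smul_smul, mul_inv_cancel₀ hc0, one_smul]
      rw [h1]
      exact (IsUnit.smul (Units.mk0 c hc0) hu)
    have hev := (IsCompactOperator.hasEigenvalue_iff_mem_spectrum hcomp (inv_ne_zero hc0)).2 hsp
    obtain ⟨x, hx⟩ := hev.exists_hasEigenvector
    have hx0 := hx.2
    have hx : Φ x = c⁻¹ • x := by simpa using hx.apply_eq_smul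
    have hxV : x ∈ V := by
      have : x = Φ (c • x) := by
        rw [map_smul, hx, smul_smul, mul_inv_cancel₀ hc0, one_smul]
      rw [this]
      exact ⟨c • x, rfl⟩
    change Module.End.HasEigenvalue T c⁻¹
    refine Module.End.hasEigenvalue_of_hasEigenvector (x := ⟨x, hxV⟩) ⟨?_, ?_⟩
    · rw [Module.End.mem_eigenspace_iff]
      ext
      exact hx
    · intro h
      exact hx0 (congrArg Subtype.val h)
  exact (hfin.image _).subset hsub

theorem idx (A M G P B : X →L[ℂ] X) (hA : A = M + G) (hM : IsUnit M)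
    (hG : FiniteDimensional ℂ (LinearMap.range (G : X →ₗ[ℂ] X))) (hPP : P * P = P)
    (hAP : A * P = P * A) (hAB : A * B = P) (hBA : B * A = P) (hPB : P * B = B) (hBP : B * P = B) :
    ∃ F : X →L[ℂ] X, P * F = 0 ∧ F * P = 0 ∧ IsUnit (A + F) ∧
      FiniteDimensional ℂ (LinearMap.range (F : X →ₗ[ℂ] X)) := by
  have hΦ : FiniteDimensional ℂ (LinearMap.range ((B * G * P : X →L[ℂ] X) : X →ₗ[ℂ] X)) := by
    have h1 : LinearMap.range ((B * G * P : X →L[ℂ] X) : X →ₗ[ℂ] X) ≤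
        (LinearMap.range (G : X →ₗ[ℂ] X)).map (B : X →ₗ[ℂ] X) := by
      rintro _ ⟨x, rfl⟩
      exact ⟨G (P x), ⟨P x, rfl⟩, rfl⟩
    exact Submodule.finiteDimensional_of_le h1
  have hbad := finite_bad (B * G * P) hΦ
  have hcont : Continuous fun s : ℂ => M - s • (P * G * P) := by fun_prop
  have hev1 : ∀ᶠ s : ℂ in 𝓝 0, IsUnit (M - s • (P * G * P)) := by
    have h1 : {x : X →L[ℂ] X | IsUnit x} ∈ 𝓝 (M - (0 : ℂ) • (P * G * P)) := by
      rw [zero_smul, sub_zero]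
      exact Units.isOpen.mem_nhds hM
    exact hcont.continuousAt h1
  have hev2 : ∀ᶠ s : ℂ in 𝓝[≠] 0, IsUnit (1 - (1 + s) • (B * G * P)) := by
    have h1 : {s : ℂ | ¬ IsUnit (1 - (1 + s) • (B * G * P))}.Finite := by
      have h2 : {s : ℂ | ¬ IsUnit (1 - (1 + s) • (B * G * P))} =
          (fun s : ℂ => 1 + s) ⁻¹' {c : ℂ | ¬ IsUnit (1 - c • (B * G * P))} := rfl
      rw [h2]
      exact hbad.preimage (add_right_injective (1:ℂ)).injOn
    have h3 := (h1.subset (Set.sdiff_subset (t := {0}))).isClosed.compl_mem_nhds (x := (0:ℂ))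
      (by simp)
    rw [eventually_nhdsWithin_iff]
    filter_upwards [h3] with s hs hs0
    by_contra hcon
    exact hs ⟨hcon, hs0⟩
  obtain ⟨s, hs1, hs2⟩ := ((hev1.filter_mono nhdsWithin_le_nhds).and hev2).exists
  obtain ⟨u, hu⟩ := hs2
  set c : X →L[ℂ] X := (1 + s) • (1 : X →L[ℂ] X) with hc
  have hcΦ : (1 : X →L[ℂ] X) - c * (B * G * P) = u := by
    rw [hu, hc, smul_mul_assoc, one_mul]
  have hN : A - G - (c - 1) * (P * G * P) = M - s • (P * G * P) := by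
    have h1 : c - 1 = s • (1 : X →L[ℂ] X) := by
      rw [hc, add_smul, one_smul]; abel
    rw [h1, smul_mul_assoc, one_mul, hA]
    abel
  obtain ⟨F, h1, h2, h3, Y, hY⟩ := Pool.Agent.J4.H86.DZ.ring_part P A G B (↑u⁻¹ : X →L[ℂ] X) c
    hPP hAP hAB hBA hPB hBP
    (fun x => by rw [hc, smul_mul_assoc, one_mul, mul_smul_comm, mul_one])
    (by rw [hcΦ]; exact u.mul_inv) (by rw [hcΦ]; exact u.inv_mul) (by rw [hN]; exact hs1)
  refine ⟨F, h1, h2, h3, ?_⟩
  have h4 : LinearMap.range (F : X →ₗ[ℂ] X) ≤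
      (LinearMap.range (G : X →ₗ[ℂ] X)).map ((1 - P : X →L[ℂ] X) : X →ₗ[ℂ] X) := by
    rintro _ ⟨x, rfl⟩
    refine ⟨G (Y x), ⟨Y x, rfl⟩, ?_⟩
    rw [hY]
    rfl
  exact Submodule.finiteDimensional_of_le h4

/-- finite rank perturbations -/
theorem pert_add {S K F₀ : X →L[ℂ] X} {E : Set ℂ} {C : ℝ} {p : ℕ} (h : Pert S K E C p)
    (hF : FiniteDimensional ℂ (LinearMap.range (F₀ : X →ₗ[ℂ] X))) :
    ∃ C' : ℝ, Pert S (K + F₀) E C' p := by
  set n : ℕ := Module.finrank ℂ (LinearMap.range (F₀ : X →ₗ[ℂ] X)) with hn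
  have hn0 : (0 : ℝ) ≤ n := Nat.cast_nonneg n
  refine ⟨C + n, fun δ hδ hδ1 => ?_⟩
  obtain ⟨G, hG1, hG2, hG3, hG4⟩ := h δ hδ hδ1
  have hδp : (0:ℝ) < δ ^ p := by positivity
  have hδp1 : δ ^ p ≤ 1 := pow_le_one₀ hδ.le hδ1
  have hnδ : (n : ℝ) ≤ n / δ ^ p := by
    rw [le_div_iff₀ hδp]
    nlinarith
  have hle : LinearMap.range ((G + F₀ : X →L[ℂ] X) : X →ₗ[ℂ] X) ≤
      LinearMap.range (G : X →ₗ[ℂ] X) ⊔ LinearMap.range (F₀ : X →ₗ[ℂ] X) := by
    rintro _ ⟨x, rfl⟩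
    exact Submodule.add_mem_sup ⟨x, rfl⟩ ⟨x, rfl⟩
  have hfin : FiniteDimensional ℂ (LinearMap.range ((G + F₀ : X →L[ℂ] X) : X →ₗ[ℂ] X)) :=
    Submodule.finiteDimensional_of_le hle
  refine ⟨G + F₀, hfin, ?_, ?_, ?_⟩
  · have h1 : Module.finrank ℂ (LinearMap.range ((G + F₀ : X →L[ℂ] X) : X →ₗ[ℂ] X)) ≤
        Module.finrank ℂ (LinearMap.range (G : X →ₗ[ℂ] X)) + n :=
      (Submodule.finrank_mono hle).trans (Submodule.finrank_add_le_finrank_add_finrank _ _)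
    have h2 : (Module.finrank ℂ (LinearMap.range ((G + F₀ : X →L[ℂ] X) : X →ₗ[ℂ] X)) : ℝ) ≤
        Module.finrank ℂ (LinearMap.range (G : X →ₗ[ℂ] X)) + n := by exact_mod_cast h1
    rw [add_div]
    linarith
  · have h1 : K + F₀ - (G + F₀) = K - G := by abel
    rw [h1]
    linarith
  · intro z hz
    obtain ⟨g1, g2, g3⟩ := hG4 z hz
    have h1 : K + F₀ - (G + F₀) = K - G := by abel
    rw [h1]
    refine ⟨g1, g2, g3.trans (Real.exp_le_exp.2 ?_)⟩
    gcongr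
    linarith

end Pool.Agent.J4.H86.HB
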