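import Pool.Agent.J4.H86.HB.Defs

/-!
Piece P_LINK: Hoover's lemma.
-/

set_option autoImplicit false

namespace Pool.Agent.J4.H86.HB

open Pool.Agent.W402.HI

/-- the eigenspace -/
theorem hyp_of_eigen {X : Type} [NormedAddCommGroup X] [NormedSpace ℂ X] {Z : X →L[ℂ] X} {c : ℂ}
    {x : X} (hx : x ≠ 0) (hZ : Z x = c • x) : IsScalar Z ∨ HasHyp Z := by
  by_cases h : IsScalar Z
  · exact Or.inl h
  right
  refine ⟨LinearMap.ker ((Z - c • (1 : X →L[ℂ] X) : X →L[ℂ] X) : X →ₗ[ℂ] X),
    (Z - c • (1 : X →L[ℂ] X)).isClosed_ker, ?_, ?_, ?_⟩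
  · intro hb
    have h1 : x ∈ LinearMap.ker ((Z - c • (1 : X →L[ℂ] X) : X →L[ℂ] X) : X →ₗ[ℂ] X) := by
      rw [LinearMap.mem_ker]
      simp [hZ]
    rw [hb, Submodule.mem_bot] at h1
    exact hx h1
  · intro ht
    apply h
    refine ⟨c, ?_⟩
    ext y
    have h1 : y ∈ LinearMap.ker ((Z - c • (1 : X →L[ℂ] X) : X →L[ℂ] X) : X →ₗ[ℂ] X) := by
      rw [ht]; trivial
    rw [LinearMap.mem_ker] at h1
    have h2 : Z y - c • y = 0 := by simpa using h1
    rw [sub_eq_zero] at h2
    simpa using h2
  · intro Q hQ y hy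
    rw [LinearMap.mem_ker] at hy ⊢
    have h2 : Z y - c • y = 0 := by simpa using hy
    rw [sub_eq_zero] at h2
    have h3 : Z (Q y) = Q (Z y) := by
      have := congrArg (fun R : X →L[ℂ] X => R y) hQ
      simpa using this.symm
    simp [h3, h2]

theorem link : P_LINK := by
  intro X X₁ _ _ _ _ _ _ Z Z₁ hnt hl h
  obtain ⟨A, B, hA, hB, hAZ, hZB⟩ := hl
  rcases h with ⟨c, hc⟩ | ⟨V, hVc, hV0, hV1, hV⟩
  · obtain ⟨v, hv⟩ := exists_ne (0 : X₁)
    have hBv : B v ≠ 0 := fun h0 => hv (hB (h0.trans (map_zero B).symm))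
    refine hyp_of_eigen (c := c) hBv ?_
    have h1 : Z (B v) = B (Z₁ v) := by
      have := congrArg (fun R : X₁ →L[ℂ] X => R v) hZB
      simpa using this
    rw [h1, hc]
    simp
  · right
    set S : Set X := {y | ∃ R : X →L[ℂ] X, R * Z = Z * R ∧ ∃ v ∈ V, y = R (B v)} with hS
    set W : Submodule ℂ X := (Submodule.span ℂ S).topologicalClosure with hW
    have hWc : IsClosed (W : Set X) := Submodule.isClosed_topologicalClosure _
    have hSW : S ⊆ W := fun y hy => Submodule.le_topologicalClosure _ (Submodule.subset_span hy)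
    refine ⟨W, hWc, ?_, ?_, ?_⟩
    · obtain ⟨v, hv, hv0⟩ := (Submodule.ne_bot_iff V).1 hV0
      intro hb
      have h1 : B v ∈ W := hSW ⟨1, by rw [one_mul, mul_one], v, hv, rfl⟩
      rw [hb, Submodule.mem_bot] at h1
      exact hv0 (hB (h1.trans (map_zero B).symm))
    · intro ht
      apply hV1
      have hle : W ≤ V.comap (A : X →ₗ[ℂ] X₁) := by
        apply Submodule.topologicalClosure_minimal
        · rw [Submodule.span_le]
          rintro _ ⟨R, hR, v, hv, rfl⟩
          have hcomm : (A.comp (R.comp B)) * Z₁ = Z₁ * (A.comp (R.comp B)) := by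
            ext w
            have e1 : B (Z₁ w) = Z (B w) := by
              have := congrArg (fun R : X₁ →L[ℂ] X => R w) hZB
              simpa using this.symm
            have e2 : R (Z (B w)) = Z (R (B w)) := by
              have := congrArg (fun T : X →L[ℂ] X => T (B w)) hR
              simpa using this
            have e3 : A (Z (R (B w))) = Z₁ (A (R (B w))) := by
              have := congrArg (fun T : X →L[ℂ] X₁ => T (R (B w))) hAZ
              simpa using this
            change A (R (B (Z₁ w))) = Z₁ (A (R (B w)))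
            rw [e1, e2, e3]
          exact hV _ hcomm v hv
        · exact hVc.preimage A.continuous
      rw [eq_top_iff]
      have hr : Set.range A ⊆ (V : Set X₁) := by
        rintro _ ⟨x, rfl⟩
        have : x ∈ W := by rw [ht]; trivial
        exact hle this
      intro y _
      have h2 : y ∈ closure (Set.range A) := hA y
      exact hVc.closure_subset_iff.2 hr h2
    · intro Q hQ
      have hle : W ≤ W.comap (Q : X →ₗ[ℂ] X) := by
        rw [hW]
        apply Submodule.topologicalClosure_minimal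
        · rw [Submodule.span_le]
          rintro _ ⟨R, hR, v, hv, rfl⟩
          apply hSW
          refine ⟨Q * R, ?_, v, hv, rfl⟩
          rw [mul_assoc, hR, ← mul_assoc, hQ, mul_assoc]
        · exact hWc.preimage Q.continuous
      exact fun x hx => hle hx

end Pool.Agent.J4.H86.HB
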