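import Pool.Agent.J4.H86.HB.Cut

/-!
The local separation theorem: operators whose spectrum in an open set is on a rectifiable curve.
-/

set_option autoImplicit false

open Filter Topology MeasureTheory Metric Set

namespace Pool.Agent.J4.H86.HB

open Pool.Agent.W402.HI Pool.Agent.W706.HIR

/-- separation by two functions of disjoint supports -/
theorem sep {X : Type} [NormedAddCommGroup X] [NormedSpace ℂ X] [CompleteSpace X] (T : X →L[ℂ] X)
    (p q : ℂ) (hpq : p ≠ q) (hp : p ∈ spectrum ℂ T) (hq : q ∈ spectrum ℂ T) (F₁ F₂ : ℂ → ℂ)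
    (h1 : Tst F₁) (h2 : Tst F₂) (r : ℝ) (hr : r ≤ ‖q - p‖ / 4)
    (s1 : ∀ z ∈ tsupport F₁, ‖z - p‖ < r) (s2 : ∀ z ∈ tsupport F₂, ‖z - q‖ < r)
    (r1 : ∀ z, D F₁ z ≠ 0 → z ∈ resolventSet ℂ T) (r2 : ∀ z, D F₂ z ≠ 0 → z ∈ resolventSet ℂ T)
    (b1 : ∃ M : ℝ, ∀ z, ‖D F₁ z‖ * (1 + ‖resolvent T z‖) ≤ M)
    (b2 : ∃ M : ℝ, ∀ z, ‖D F₂ z‖ * (1 + ‖resolvent T z‖) ≤ M)
    (m1 : F₁ p ≠ 0 ∧ ∀ᶠ z in 𝓝 p, D F₁ z = 0) (m2 : F₂ q ≠ 0 ∧ ∀ᶠ z in 𝓝 q, D F₂ z = 0) :
    HasHyp T := by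
  have hqp : ‖q - p‖ ≠ 0 := by
    rw [norm_ne_zero_iff]
    exact sub_ne_zero.2 (Ne.symm hpq)
  have hqp0 : 0 < ‖q - p‖ := lt_of_le_of_ne (norm_nonneg _) (Ne.symm hqp)
  obtain ⟨e, he⟩ : ∃ e : ℂ, e = (starRingEnd ℂ) (q - p) / (‖q - p‖ : ℂ) := ⟨_, rfl⟩
  have hen : ‖e‖ = 1 := by
    rw [he, norm_div, RCLike.norm_conj, Complex.norm_real, norm_norm, div_self hqp]
  have he0 : e ≠ 0 := by
    intro h0
    rw [h0, norm_zero] at hen
    exact zero_ne_one hen
  have hei : ‖e⁻¹‖ = 1 := by rw [norm_inv, hen, inv_one]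
  have hre : (e * q).re - (e * p).re = ‖q - p‖ := by
    have h1 : e * (q - p) = ((‖q - p‖ : ℝ) : ℂ) := by
      rw [he, div_mul_eq_mul_div, Complex.conj_mul', sq, mul_div_assoc, div_self, mul_one]
      exact_mod_cast hqp
    rw [← Complex.sub_re, ← mul_sub, h1, Complex.ofReal_re]
  -- the unit
  let u : ℂˣ := Units.mk0 e he0
  have huT : u • T = e • T := rfl
  have hres : ∀ z, ‖resolvent (e • T) z‖ = ‖resolvent T (e⁻¹ * z)‖ := by
    intro z
    have h1 := spectrum.units_smul_resolvent (r := u⁻¹) (s := e⁻¹ * z) (a := T)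
    rw [inv_inv, huT] at h1
    have h2 : (u • (e⁻¹ * z) : ℂ) = z := by
      change e * (e⁻¹ * z) = z
      rw [mul_inv_cancel_left₀ he0]
    rw [h2] at h1
    rw [← h1]
    have h3 : (u⁻¹ • resolvent T (e⁻¹ * z) : X →L[ℂ] X) = e⁻¹ • resolvent T (e⁻¹ * z) := by
      rw [Units.smul_def]
      simp [u]
    rw [h3, norm_smul, norm_inv, hen, inv_one, one_mul]
  have hspec : ∀ z, z ∈ spectrum ℂ T → e * z ∈ spectrum ℂ (e • T) := by
    intro z hz
    have h1 := spectrum.unit_smul_eq_smul (a := T) (r := u)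
    rw [huT] at h1
    rw [h1]
    exact ⟨z, hz, rfl⟩
  have hresset : ∀ z, e⁻¹ * z ∈ resolventSet ℂ T → z ∈ resolventSet ℂ (e • T) := by
    intro z hz
    by_contra h
    have h0 : z ∈ spectrum ℂ (e • T) := h
    have h1 := spectrum.unit_smul_eq_smul (a := T) (r := u)
    rw [huT] at h1
    rw [h1] at h0
    obtain ⟨y, hy, rfl⟩ := h0
    have h3 : e⁻¹ * (u • y : ℂ) = y := by
      change e⁻¹ * (e * y) = y
      rw [inv_mul_cancel_left₀ he0]
    have hz' : e⁻¹ * (u • y : ℂ) ∈ resolventSet ℂ T := hz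
    rw [h3] at hz'
    exact hy hz'
  -- the functions
  have gen : ∀ (F : ℂ → ℂ), Tst F → (∀ z, D F z ≠ 0 → z ∈ resolventSet ℂ T) →
      (∃ M : ℝ, ∀ z, ‖D F z‖ * (1 + ‖resolvent T z‖) ≤ M) → ∀ a : ℂ,
      (∀ z ∈ tsupport F, ‖z - a‖ < r) → ∀ c : ℝ, r + ‖q - p‖ / 4 ≤ |(e * a).re - c| →
      Tst (fun z => F (e⁻¹ * z)) ∧ (∀ z ∈ tsupport (fun z => F (e⁻¹ * z)), ‖z - e * a‖ < r) ∧
      (∀ z, D (fun z => F (e⁻¹ * z)) z ≠ 0 → z ∈ resolventSet ℂ (e • T)) ∧
      (∃ M : ℝ, ∀ z, ‖D (fun z => F (e⁻¹ * z)) z‖ * (1 + ‖resolvent (e • T) z‖) ≤ M * |z.re - c|) ∧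
      ((∀ᶠ z in 𝓝 a, D F z = 0) → ∀ᶠ z in 𝓝 (e * a), D (fun z => F (e⁻¹ * z)) z = 0) := by
    intro F hF hr' hb a hs c hc
    have hDn : ∀ z, ‖D (fun z => F (e⁻¹ * z)) z‖ = ‖D F (e⁻¹ * z)‖ := by
      intro z
      rw [D_mul hF.diff, norm_mul, RCLike.norm_conj, hei, one_mul]
    have hD0 : ∀ z, D (fun z => F (e⁻¹ * z)) z = 0 ↔ D F (e⁻¹ * z) = 0 := by
      intro z
      rw [← norm_eq_zero, hDn, norm_eq_zero]
    have hts : tsupport (fun z => F (e⁻¹ * z)) = (fun z => e⁻¹ * z) ⁻¹' tsupport F :=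
      tsupport_comp_eq_preimage F (Homeomorph.mulLeft₀ e⁻¹ (inv_ne_zero he0))
    have hnn : ∀ z, ‖e⁻¹ * z - a‖ = ‖z - e * a‖ := by
      intro z
      have : e⁻¹ * z - a = e⁻¹ * (z - e * a) := by
        rw [mul_sub, inv_mul_cancel_left₀ he0]
      rw [this, norm_mul, hei, one_mul]
    have hsup : ∀ z ∈ tsupport (fun z => F (e⁻¹ * z)), ‖z - e * a‖ < r := by
      intro z hz
      rw [hts] at hz
      rw [← hnn]
      exact hs _ hz
    refine ⟨tst_mul_left hF (inv_ne_zero he0), hsup, ?_, ?_, ?_⟩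
    · intro z hz
      refine hresset z (hr' _ ?_)
      intro h0
      exact hz ((hD0 z).2 h0)
    · obtain ⟨M, hM⟩ := hb
      refine ⟨|M| / (‖q - p‖ / 4), fun z => ?_⟩
      rw [hDn, hres]
      by_cases h0 : D F (e⁻¹ * z) = 0
      · rw [h0, norm_zero, zero_mul]
        positivity
      · have h3 : ‖z - e * a‖ < r := by
          rw [← hnn]
          exact hs _ (D_supp h0)
        have h4 : ‖q - p‖ / 4 ≤ |z.re - c| := by
          have h5 : |(z - e * a).re| ≤ ‖z - e * a‖ := Complex.abs_re_le_norm _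
          have h6 : |(e * a).re - c| ≤ |z.re - c| + |(z - e * a).re| := by
            have : (e * a).re - c = (z.re - c) - (z - e * a).re := by
              rw [Complex.sub_re]; ring
            rw [this]
            exact abs_sub _ _
          linarith
        calc ‖D F (e⁻¹ * z)‖ * (1 + ‖resolvent T (e⁻¹ * z)‖) ≤ M := hM _
          _ ≤ |M| := le_abs_self _
          _ = |M| / (‖q - p‖ / 4) * (‖q - p‖ / 4) := by field_simp
          _ ≤ |M| / (‖q - p‖ / 4) * |z.re - c| := by gcongr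
    · intro h
      have h3 : Tendsto (fun z => e⁻¹ * z) (𝓝 (e * a)) (𝓝 (e⁻¹ * (e * a))) :=
        (continuous_const.mul continuous_id).tendsto _
      rw [inv_mul_cancel_left₀ he0] at h3
      filter_upwards [h3.eventually h] with z hz
      exact (hD0 z).2 hz
  set c : ℝ := (e * p).re + ‖q - p‖ / 2 with hc
  obtain ⟨f1, f2, f3, f4, f5⟩ := gen F₁ h1 r1 b1 p s1 c (by
    have : (e * p).re - c = -(‖q - p‖ / 2) := by rw [hc]; ring
    rw [this, abs_neg, abs_of_pos (by linarith)]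
    linarith)
  obtain ⟨g1, g2, g3, g4, g5⟩ := gen F₂ h2 r2 b2 q s2 c (by
    have : (e * q).re - c = ‖q - p‖ / 2 := by rw [hc]; linarith
    rw [this, abs_of_pos (by linarith)]
    linarith)
  have hhyp : HasHyp (e • T) := by
    refine Pool.Agent.W816.HI.mainA4 Pool.Agent.W816.HI.mainA2
      (Pool.Agent.W261.HI.A3.main Pool.Agent.W816.HI.mainA1) X (e • T) c ∅ Set.countable_empty
      _ _ f1 g1 ?_ ?_ ?_ f3 g3 f4 g4 ?_ ?_
    · intro z hz
      left
      have h3 := f2 z hz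
      have h5 : |(z - e * p).re| ≤ ‖z - e * p‖ := Complex.abs_re_le_norm _
      have h6 := le_abs_self (z - e * p).re
      rw [Complex.sub_re] at h6 h5
      rw [hc]
      linarith
    · intro z hz
      left
      have h3 := g2 z hz
      have h5 : |(z - e * q).re| ≤ ‖z - e * q‖ := Complex.abs_re_le_norm _
      have h6 := neg_abs_le (z - e * q).re
      rw [Complex.sub_re] at h6 h5
      rw [hc]
      linarith
    · intro z hz
      exact absurd hz (Set.notMem_empty z)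
    · refine ⟨e * p, hspec p hp, ?_, f5 m1.2⟩
      rw [inv_mul_cancel_left₀ he0]
      exact m1.1
    · refine ⟨e * q, hspec q hq, ?_, g5 m2.2⟩
      rw [inv_mul_cancel_left₀ he0]
      exact m2.1
  obtain ⟨V, hVc, hV0, hV1, hVQ⟩ := hhyp
  refine ⟨V, hVc, hV0, hV1, ?_⟩
  intro Q hQ x hx
  refine hVQ Q ?_ x hx
  rw [mul_smul_comm, smul_mul_assoc, hQ]

/-- the truncated resolvent -/
theorem trunc {X : Type} [NormedAddCommGroup X] [NormedSpace ℂ X] [CompleteSpace X] (T : X →L[ℂ] X)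
    (E U : Set ℂ) (hres : ∀ z ∈ U, z ∉ E → z ∈ resolventSet ℂ T) (μ : ℂ) (r : ℝ)
    (hr : 0 < r) (hrU : closedBall μ (2 * r) ⊆ U) (A : ℕ)
    (hg : ∀ w ∈ U, w ∈ E → ∀ d : ℂ, ‖d‖ = 1 → TangentAt E w d →
      ConeGrowth (fun z => ‖resolvent T z‖) w d A) :
    ∃ N : ℂ → ℝ, (∀ z, 0 ≤ N z) ∧ ContinuousOn N Eᶜ ∧
      (∀ w ∈ E, ∀ d : ℂ, ‖d‖ = 1 → TangentAt E w d → ConeGrowth N w d A) ∧
      ∀ z, ‖z - μ‖ < r → N z = ‖resolvent T z‖ := by
  set χ : ℂ → ℝ := fun z => max 0 (min 1 (2 - ‖z - μ‖ / r)) with hχ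
  have hχc : Continuous χ := by fun_prop
  have hχ0 : ∀ z, 0 ≤ χ z := fun z => le_max_left _ _
  have hχ1 : ∀ z, χ z ≤ 1 := fun z => max_le zero_le_one (min_le_left _ _)
  have hχz : ∀ z, 2 * r ≤ ‖z - μ‖ → χ z = 0 := by
    intro z hz
    rw [hχ]
    simp only
    apply max_eq_left
    refine (min_le_right _ _).trans ?_
    rw [sub_nonpos, le_div_iff₀ hr]
    exact hz
  have hle : ∀ z, χ z * ‖resolvent T z‖ ≤ ‖resolvent T z‖ := by
    intro z
    calc χ z * ‖resolvent T z‖ ≤ 1 * ‖resolvent T z‖ :=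
          mul_le_mul_of_nonneg_right (hχ1 z) (norm_nonneg _)
      _ = _ := one_mul _
  refine ⟨fun z => χ z * ‖resolvent T z‖, fun z => mul_nonneg (hχ0 z) (norm_nonneg _), ?_, ?_, ?_⟩
  · intro z hz
    by_cases hzU : z ∈ U
    · have h1 := (spectrum.hasDerivAt_resolvent_const_left (hres z hzU hz)).continuousAt
      exact (hχc.continuousAt.mul h1.norm).continuousWithinAt
    · have h1 : 2 * r < ‖z - μ‖ := by
        by_contra h
        push Not at h
        apply hzU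
        apply hrU
        rw [mem_closedBall, dist_eq_norm]
        exact h
      have h2 : ∀ᶠ y in 𝓝 z, 2 * r < ‖y - μ‖ :=
        (continuous_id.sub continuous_const).norm.continuousAt.eventually (lt_mem_nhds h1)
      have h3 : (fun y => χ y * ‖resolvent T y‖) =ᶠ[𝓝 z] fun _ => (0:ℝ) := by
        filter_upwards [h2] with y hy
        rw [hχz y hy.le, zero_mul]
      exact (continuousAt_const.congr h3.symm).continuousWithinAt
  · intro w hw d hd ht
    by_cases hwU : w ∈ U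
    · intro θ hθ
      obtain ⟨C, ρ, hρ, h⟩ := hg w hwU hw d hd ht θ hθ
      exact ⟨C, ρ, hρ, fun z hzw hzr hc => (hle z).trans (h z hzw hzr hc)⟩
    · have h1 : 2 * r < ‖w - μ‖ := by
        by_contra h
        push Not at h
        apply hwU
        apply hrU
        rw [mem_closedBall, dist_eq_norm]
        exact h
      intro θ hθ
      refine ⟨0, ‖w - μ‖ - 2 * r, by linarith, fun z hzw hzr _ => ?_⟩
      have h2 : 2 * r ≤ ‖z - μ‖ := by
        have h3 : ‖w - μ‖ ≤ ‖z - w‖ + ‖z - μ‖ := by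
          have : w - μ = -(z - w) + (z - μ) := by ring
          rw [this]
          refine (norm_add_le _ _).trans ?_
          rw [norm_neg]
        linarith
      simp only
      rw [hχz z h2, zero_mul]
      exact (Real.exp_pos _).le
  · intro z hz
    have h1 : χ z = 1 := by
      rw [hχ]
      simp only
      have h2 : (1:ℝ) ≤ 2 - ‖z - μ‖ / r := by
        have h3 : ‖z - μ‖ / r ≤ 1 := by
          rw [div_le_one hr]
          exact hz.le
        linarith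
      rw [min_eq_left h2]
      exact max_eq_right zero_le_one
    simp only
    rw [h1, one_mul]

/-- **the local separation theorem** -/
theorem loc : P_LOC := by
  intro X _ _ _ T γ L U hγ hU hres hnt hg
  obtain ⟨p, ⟨hp, hpU⟩, q, ⟨hq, hqU⟩, hpq⟩ := hnt
  obtain ⟨A, hg⟩ := hg
  set E := γ '' Icc 0 1 with hE
  have hqp0 : 0 < ‖q - p‖ := norm_pos_iff.2 (sub_ne_zero.2 (Ne.symm hpq))
  have hpE : p ∈ E := by
    by_contra h
    exact hp (hres p hpU h)
  have hqE : q ∈ E := by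
    by_contra h
    exact hq (hres q hqU h)
  obtain ⟨ρ₁, hρ₁, hB₁⟩ := Metric.isOpen_iff.1 hU p hpU
  obtain ⟨ρ₂, hρ₂, hB₂⟩ := Metric.isOpen_iff.1 hU q hqU
  set r : ℝ := min (‖q - p‖ / 4) (min (ρ₁ / 4) (ρ₂ / 4)) with hr
  have hr0 : 0 < r := by
    rw [hr]
    refine lt_min (by positivity) (lt_min (by positivity) (by positivity))
  have hr1 : r ≤ ‖q - p‖ / 4 := min_le_left _ _
  have hr2 : r ≤ ρ₁ / 4 := (min_le_right _ _).trans (min_le_left _ _)
  have hr3 : r ≤ ρ₂ / 4 := (min_le_right _ _).trans (min_le_right _ _)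
  have key : ∀ μ ∈ E, closedBall μ (2 * r) ⊆ U → ∃ F : ℂ → ℂ, Tst F ∧
      (∀ z ∈ tsupport F, ‖z - μ‖ < r) ∧ (∀ z, D F z ≠ 0 → z ∈ resolventSet ℂ T) ∧
      (∃ M : ℝ, ∀ z, ‖D F z‖ * (1 + ‖resolvent T z‖) ≤ M) ∧ F μ ≠ 0 ∧ ∀ᶠ z in 𝓝 μ, D F z = 0 := by
    intro μ hμ hμU
    obtain ⟨N, hN0, hNc, hNg, hNe⟩ := trunc T E U hres μ r hr0 hμU A hg
    obtain ⟨F, h1, h2, h3, h4⟩ := box γ L hγ N A hN0 hNc hNg μ hμ r hr0
    obtain ⟨M, hM⟩ := h1.bd
    have hM0 : 0 ≤ M := by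
      refine le_trans ?_ (hM 0)
      have := hN0 0
      positivity
    refine ⟨F, h1.tst, h2, ?_, ⟨M, fun z => ?_⟩, h3, h4⟩
    · intro z hz
      refine hres z (hμU ?_) (h1.off z hz)
      rw [mem_closedBall, dist_eq_norm]
      have := h2 z (D_supp hz)
      linarith
    · by_cases h0 : D F z = 0
      · rw [h0, norm_zero, zero_mul]
        exact hM0
      · have h5 := hM z
        rw [hNe z (h2 z (D_supp h0))] at h5
        exact h5
  obtain ⟨F₁, a1, a2, a3, a4, a5, a6⟩ := key p hpE (by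
    refine Subset.trans ?_ hB₁
    refine closedBall_subset_ball ?_
    linarith)
  obtain ⟨F₂, b1, b2, b3, b4, b5, b6⟩ := key q hqE (by
    refine Subset.trans ?_ hB₂
    refine closedBall_subset_ball ?_
    linarith)
  exact sep T p q hpq hp hq F₁ F₂ a1 b1 r hr1 a2 b2 a3 b3 a4 b4 ⟨a5, a6⟩ ⟨b5, b6⟩

end Pool.Agent.J4.H86.HB
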