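import Pool.Agent.J4.H86.HB.Link

/-!
Piece P_POLY: algebraic relations with coefficients in the bicommutant.
-/

set_option autoImplicit false

open Polynomial

namespace Pool.Agent.J4.H86.HB

open Pool.Agent.W402.HI

/-- an algebraic operator has an eigenvector -/
theorem eigen_of_alg {E : Type} [NormedAddCommGroup E] [NormedSpace ℂ E] [Nontrivial E]
    (T : E →L[ℂ] E) {p : ℂ[X]} (hp : p.Monic) (hT : aeval T p = 0) :
    ∃ (c : ℂ) (x : E), x ≠ 0 ∧ T x = c • x := by
  have hint : IsIntegral ℂ T := ⟨p, hp, hT⟩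
  have hdeg : 0 < (minpoly ℂ T).degree := minpoly.degree_pos hint
  obtain ⟨c, hc⟩ := IsAlgClosed.exists_root (minpoly ℂ T) (ne_of_gt hdeg)
  obtain ⟨q, hq⟩ := dvd_iff_isRoot.2 hc
  have hq0 : q ≠ 0 := by
    rintro rfl
    rw [mul_zero] at hq
    exact minpoly.ne_zero hint hq
  have hqT : aeval T q ≠ 0 := by
    intro h0
    have h1 := minpoly.degree_le_of_ne_zero ℂ T hq0 h0
    rw [hq, degree_mul, degree_X_sub_C, degree_eq_natDegree hq0] at h1
    have h2 : 1 + q.natDegree ≤ q.natDegree := by exact_mod_cast h1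
    omega
  have hne : ∃ y, aeval T q y ≠ 0 := by
    by_contra hcon
    push Not at hcon
    exact hqT (ContinuousLinearMap.ext hcon)
  obtain ⟨y, hy⟩ := hne
  refine ⟨c, aeval T q y, hy, ?_⟩
  have h1 : aeval T ((X - C c) * q) = 0 := by rw [← hq]; exact minpoly.aeval ℂ T
  rw [map_mul, map_sub, aeval_X, aeval_C] at h1
  have h2 := congrArg (fun R : E →L[ℂ] E => R y) h1
  have h3 : T (aeval T q y) - (algebraMap ℂ (E →L[ℂ] E) c) (aeval T q y) = 0 := by
    simpa using h2
  rw [sub_eq_zero] at h3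
  rw [h3]
  simp [Algebra.algebraMap_eq_smul_one]

theorem poly : P_POLY := by
  intro E _ _ _ T n Z hn hZ hZj hP
  by_cases hH : HasHyp T
  · exact Or.inr hH
  have hbi : ∀ Y : E →L[ℂ] E, (∀ Q : E →L[ℂ] E, Q * T = T * Q → Q * Y = Y * Q) →
      (IsScalar Y ∨ HasHyp Y) → IsScalar Y := by
    intro Y hY h
    rcases h with h | ⟨V, h1, h2, h3, h4⟩
    · exact h
    · exact absurd ⟨V, h1, h2, h3, fun Q hQ => h4 Q (hY Q hQ)⟩ hH
  have hZs : ∀ j, ∃ c : ℂ, j < n → Z j = c • (1 : E →L[ℂ] E) := by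
    intro j
    by_cases hj : j < n
    · obtain ⟨c, hc⟩ := hbi (Z j) (hZ j hj) (hZj j hj)
      exact ⟨c, fun _ => hc⟩
    · exact ⟨0, fun h => absurd h hj⟩
  choose c hc using hZs
  have hPb : ∀ Q : E →L[ℂ] E, Q * T = T * Q →
      Q * (T ^ n + ∑ j ∈ Finset.range n, Z j * T ^ j) =
        (T ^ n + ∑ j ∈ Finset.range n, Z j * T ^ j) * Q := by
    intro Q hQ
    have hpow : ∀ k, Q * T ^ k = T ^ k * Q := fun k => (show Commute Q T from hQ).pow_right k
    rw [mul_add, add_mul, hpow, Finset.mul_sum, Finset.sum_mul]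
    congr 1
    refine Finset.sum_congr rfl fun j hj => ?_
    rw [← mul_assoc, hZ j (Finset.mem_range.1 hj) Q hQ, mul_assoc, hpow, mul_assoc]
  obtain ⟨a, ha⟩ := hbi _ hPb hP
  rcases subsingleton_or_nontrivial E with hs | hnt
  · left
    exact ⟨0, ContinuousLinearMap.ext fun x => Subsingleton.elim _ _⟩
  -- the polynomial
  set q : ℂ[X] := (∑ j ∈ Finset.range n, C (c j) * X ^ j) - C a with hq
  have hqd : q.degree < n := by
    refine (degree_sub_le _ _).trans_lt (max_lt ?_ ?_)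
    · refine (degree_sum_le _ _).trans_lt ?_
      rw [Finset.sup_lt_iff (by exact_mod_cast WithBot.bot_lt_coe n)]
      intro j hj
      exact (degree_C_mul_X_pow_le _ _).trans_lt (by exact_mod_cast Finset.mem_range.1 hj)
    · exact degree_C_le.trans_lt (by exact_mod_cast hn)
  have hmon : (X ^ n + q : ℂ[X]).Monic := monic_X_pow_add hqd
  have hev : aeval T (X ^ n + q : ℂ[X]) = 0 := by
    rw [hq, map_add, map_sub, map_sum, map_pow, aeval_X, aeval_C]
    have h1 : ∑ j ∈ Finset.range n, aeval T (C (c j) * X ^ j : ℂ[X]) =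
        ∑ j ∈ Finset.range n, Z j * T ^ j := by
      refine Finset.sum_congr rfl fun j hj => ?_
      rw [map_mul, aeval_C, map_pow, aeval_X, hc j (Finset.mem_range.1 hj),
        Algebra.algebraMap_eq_smul_one]
    rw [h1, ← add_sub_assoc, ha, Algebra.algebraMap_eq_smul_one, sub_self]
  obtain ⟨μ, x, hx, hTx⟩ := eigen_of_alg T hmon hev
  exact hyp_of_eigen hx hTx

end Pool.Agent.J4.H86.HB
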