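import Pool.Agent.J4.H86.HB.IdxB
import Pool.Agent.J4.H86.CR.OneP

/-!
Direct summands of operators on Banach spaces.
-/

set_option autoImplicit false
set_option linter.unusedSectionVars false

open Filter Topology Metric Set MeasureTheory

namespace Pool.Agent.J4.H86.HB

open Pool.Agent.W402.HI Pool.Agent.J4.H86.CR

variable {X Y : Type} [NormedAddCommGroup X] [NormedSpace ℂ X] [CompleteSpace X]
  [NormedAddCommGroup Y] [NormedSpace ℂ Y] [CompleteSpace Y]

/-- `T` is a direct summand of `A` -/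
structure SummB (J : X →L[ℂ] Y) (Q : Y →L[ℂ] X) (A : Y →L[ℂ] Y) (T : X →L[ℂ] X) : Prop where
  one : ∀ x, Q (J x) = x
  left : ∀ x, A (J x) = J (T x)
  right : ∀ y, Q (A y) = T (Q y)

theorem app1 {A : X →L[ℂ] X} {z : ℂ} (hz : z ∈ resolventSet ℂ A) (x : X) :
    z • resolvent A z x - A (resolvent A z x) = x := by
  have := congrArg (fun L : X →L[ℂ] X => L x) (res_mul hz).1
  simpa only [mul_apply_eq_comp, sub_apply, smul_apply, one_apply_eq_self] using this

theorem app2 {A : X →L[ℂ] X} {z : ℂ} (hz : z ∈ resolventSet ℂ A) (x : X) :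
    resolvent A z (z • x - A x) = x := by
  have := congrArg (fun L : X →L[ℂ] X => L x) (res_mul hz).2
  simpa only [mul_apply_eq_comp, sub_apply, smul_apply, one_apply_eq_self] using this

/-- the resolvent of a direct summand -/
theorem SummB.res {J : X →L[ℂ] Y} {Q : Y →L[ℂ] X} {A : Y →L[ℂ] Y} {T : X →L[ℂ] X}
    (h : SummB J Q A T) {z : ℂ} (hz : z ∈ resolventSet ℂ A) : z ∈ resolventSet ℂ T ∧
      resolvent T z = Q.comp ((resolvent A z).comp J) := by
  set R := resolvent A z with hR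
  set B : X →L[ℂ] X := Q.comp (R.comp J) with hB
  have hBx : ∀ x, B x = Q (R (J x)) := fun x => rfl
  have h1 : (algebraMap ℂ (X →L[ℂ] X) z - T) * B = 1 := by
    ext x
    have e : ((algebraMap ℂ (X →L[ℂ] X) z - T) * B) x = z • B x - T (B x) := by
      simp [Algebra.algebraMap_eq_smul_one]
    rw [e, hBx, ← h.right, ← map_smul, ← map_sub, hR, app1 hz, h.one]
    rfl
  have h2 : B * (algebraMap ℂ (X →L[ℂ] X) z - T) = 1 := by
    ext x
    have e : (B * (algebraMap ℂ (X →L[ℂ] X) z - T)) x = B (z • x - T x) := by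
      simp [Algebra.algebraMap_eq_smul_one]
    rw [e, hBx, map_sub, map_smul, ← h.left, hR, app2 hz, h.one]
    rfl
  have hu : IsUnit (algebraMap ℂ (X →L[ℂ] X) z - T) := ⟨⟨_, B, h1, h2⟩, rfl⟩
  refine ⟨hu, ?_⟩
  have h3 : resolvent T z * (algebraMap ℂ (X →L[ℂ] X) z - T) = 1 := Ring.inverse_mul_cancel _ hu
  calc resolvent T z = resolvent T z * ((algebraMap ℂ (X →L[ℂ] X) z - T) * B) := by
        rw [h1, mul_one]
    _ = B := by rw [← mul_assoc, h3, one_mul]

/-- the norm of a compression -/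
theorem comp_norm (J : X →L[ℂ] Y) (Q : Y →L[ℂ] X) (R : Y →L[ℂ] Y) :
    ‖Q.comp (R.comp J)‖ ≤ ‖Q‖ * ‖J‖ * ‖R‖ := by
  calc ‖Q.comp (R.comp J)‖ ≤ ‖Q‖ * ‖R.comp J‖ := ContinuousLinearMap.opNorm_comp_le _ _
    _ ≤ ‖Q‖ * (‖R‖ * ‖J‖) := by
      gcongr
      exact ContinuousLinearMap.opNorm_comp_le _ _
    _ = ‖Q‖ * ‖J‖ * ‖R‖ := by ring

/-- points of the spectrum in the Fredholm region -/
theorem SummB.point {J : X →L[ℂ] Y} {Q : Y →L[ℂ] X} {S K : Y →L[ℂ] Y} {T : X →L[ℂ] X}
    (h : SummB J Q (S + K) T) (hK : IsCompactOperator K) {z : ℂ} (hz : z ∈ resolventSet ℂ S)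
    (hzT : z ∈ spectrum ℂ T) : IsScalar T ∨ HasHyp T := by
  set R := resolvent S z with hR
  set L : X →L[ℂ] X := z • (1 : X →L[ℂ] X) - T with hL
  have hLx : ∀ x, L x = z • x - T x := fun x => by simp [hL]
  have hcomm : ∀ B : X →L[ℂ] X, B * T = T * B → ∀ x, B (L x) = L (B x) := by
    intro B hB x
    have h1 : B (T x) = T (B x) := congrArg (fun S : X →L[ℂ] X => S x) hB
    rw [hLx, hLx, map_sub, map_smul, h1]
  have hscal : L = 0 → IsScalar T := by
    intro h0
    refine ⟨z, ?_⟩
    rw [hL, sub_eq_zero] at h0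
    exact h0.symm
  by_cases hinj : ∀ x, L x = 0 → x = 0
  swap
  · push Not at hinj
    obtain ⟨v, hv, hv0⟩ := hinj
    by_cases htop : LinearMap.ker (L : X →ₗ[ℂ] X) = ⊤
    · left
      apply hscal
      ext x
      have : x ∈ LinearMap.ker (L : X →ₗ[ℂ] X) := by rw [htop]; trivial
      exact this
    · right
      refine ⟨LinearMap.ker (L : X →ₗ[ℂ] X), ContinuousLinearMap.isClosed_ker L, ?_, htop, ?_⟩
      · intro hbot
        have : v ∈ LinearMap.ker (L : X →ₗ[ℂ] X) := hv
        rw [hbot] at this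
        exact hv0 (by simpa using this)
      · intro B hB x hx
        have hx' : L x = 0 := hx
        have h1 := hcomm B hB x
        rw [hx', map_zero] at h1
        exact h1.symm
  -- bounded below
  set C₁ : X →L[ℂ] X := Q.comp ((R * K).comp J) with hC₁
  have hC₁c : IsCompactOperator C₁ := ((hK.clm_comp R).comp_clm J).clm_comp Q
  have hpar : ∀ x, x = Q (R (J (L x))) + C₁ x := by
    intro x
    have e1 : J (L x) = (z • J x - S (J x)) - K (J x) := by
      have := h.left x
      rw [add_apply] at this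
      rw [hLx, map_sub, map_smul, ← this]
      abel
    have e2 : C₁ x = Q (R (K (J x))) := rfl
    rw [e1, map_sub, hR, app2 hz, map_sub, h.one, e2]
    abel
  have hbd : ∃ c : ℝ, 0 < c ∧ ∀ x, c * ‖x‖ ≤ ‖L x‖ := by
    by_contra hcon
    push Not at hcon
    have hseq : ∀ n : ℕ, ∃ x : X, ‖x‖ = 1 ∧ ‖L x‖ < 1 / ((n:ℝ) + 1) := by
      intro n
      obtain ⟨x, hx⟩ := hcon (1 / ((n:ℝ) + 1)) (by positivity)
      have hx0 : x ≠ 0 := by
        rintro rfl
        simp at hx
      have hxn : 0 < ‖x‖ := norm_pos_iff.2 hx0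
      refine ⟨((‖x‖ : ℂ)⁻¹) • x, ?_, ?_⟩
      · rw [norm_smul, norm_inv, Complex.norm_real, norm_norm, inv_mul_cancel₀ hxn.ne']
      · rw [map_smul, norm_smul, norm_inv, Complex.norm_real, norm_norm, inv_mul_lt_iff₀ hxn]
        linarith
    choose x hx1 hx2 using hseq
    have hcomp := hC₁c.isCompact_closure_image_closedBall 1
    obtain ⟨y, -, φ, hφ, hy⟩ := hcomp.tendsto_subseq (x := fun n => C₁ (x n))
      (fun n => subset_closure ⟨x n, by simp [hx1], rfl⟩)
    have hL0 : Tendsto (fun n => L (x (φ n))) atTop (𝓝 0) := by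
      rw [tendsto_zero_iff_norm_tendsto_zero]
      have h3 : Tendsto (fun n : ℕ => 1 / ((φ n : ℝ) + 1)) atTop (𝓝 0) :=
        (tendsto_one_div_add_atTop_nhds_zero_nat (𝕜 := ℝ)).comp hφ.tendsto_atTop
      exact squeeze_zero (fun n => norm_nonneg _) (fun n => (hx2 (φ n)).le) h3
    have hxy : Tendsto (fun n => x (φ n)) atTop (𝓝 y) := by
      have h3 : Tendsto (fun n => Q (R (J (L (x (φ n))))) + C₁ (x (φ n))) atTop (𝓝 (0 + y)) := by
        refine Tendsto.add ?_ hy
        have h4 := ((Q.continuous.comp R.continuous).comp J.continuous).tendsto (0 : X)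
        have h5 := h4.comp hL0
        have h6 : ((⇑Q ∘ ⇑R) ∘ ⇑J) (0 : X) = 0 := by simp
        rw [h6] at h5
        exact h5
      rw [zero_add] at h3
      refine h3.congr fun n => ?_
      exact (hpar _).symm
    have hy1 : ‖y‖ = 1 := by
      have h3 := hxy.norm
      simp only [hx1] at h3
      exact (tendsto_nhds_unique h3 tendsto_const_nhds)
    have hy0 : L y = 0 := tendsto_nhds_unique ((L.continuous.tendsto y).comp hxy) hL0
    rw [hinj y hy0, norm_zero] at hy1
    exact zero_ne_one hy1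
  obtain ⟨c, hc, hcb⟩ := hbd
  have hanti : AntilipschitzWith (Real.toNNReal c⁻¹) L := by
    refine ContinuousLinearMap.antilipschitz_of_bound L fun x => ?_
    rw [Real.coe_toNNReal _ (by positivity)]
    rw [inv_mul_eq_div, le_div_iff₀ hc, mul_comm]
    exact hcb x
  have hclosed : IsClosed (Set.range L) := hanti.isClosed_range L.uniformContinuous
  have hker : LinearMap.ker (L : X →ₗ[ℂ] X) = ⊥ := by
    rw [LinearMap.ker_eq_bot]
    exact hanti.injective
  by_cases hsurj : LinearMap.range (L : X →ₗ[ℂ] X) = ⊤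
  · exfalso
    have hu : IsUnit L :=
      ⟨ContinuousLinearEquiv.toUnit (ContinuousLinearEquiv.ofBijective L hker hsurj), by
        ext x; rfl⟩
    apply hzT
    rw [spectrum.mem_resolventSet_iff, Algebra.algebraMap_eq_smul_one]
    exact hu
  · by_cases hbot : LinearMap.range (L : X →ₗ[ℂ] X) = ⊥
    · left
      apply hscal
      ext x
      have : L x ∈ LinearMap.range (L : X →ₗ[ℂ] X) := ⟨x, rfl⟩
      rw [hbot] at this
      simpa using this
    · right
      refine ⟨LinearMap.range (L : X →ₗ[ℂ] X), hclosed, hbot, hsurj, ?_⟩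
      rintro B hB _ ⟨x, rfl⟩
      exact ⟨B x, (hcomm B hB x).symm⟩

/-- the resolvent modulo the compact operators -/
theorem SummB.calkin {J : X →L[ℂ] Y} {Q : Y →L[ℂ] X} {S K : Y →L[ℂ] Y} {T : X →L[ℂ] X}
    (h : SummB J Q (S + K) T) (hK : IsCompactOperator K) {z : ℂ} (hz : z ∈ resolventSet ℂ S)
    (hzT : z ∈ resolventSet ℂ T) : ∃ K' : X →L[ℂ] X, IsCompactOperator K' ∧
      resolvent T z - K' = Q.comp ((resolvent S z).comp J) := by
  refine ⟨(resolvent T z).comp (Q.comp ((K * resolvent S z).comp J)), ?_, ?_⟩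
  · exact (((hK.comp_clm (resolvent S z)).comp_clm J).clm_comp Q).clm_comp (resolvent T z)
  · ext x
    have e1 : (resolvent T z - (resolvent T z).comp (Q.comp ((K * resolvent S z).comp J))) x =
        resolvent T z (x - Q (K (resolvent S z (J x)))) := by
      rw [map_sub]
      rfl
    have e2 : (Q.comp ((resolvent S z).comp J)) x = Q (resolvent S z (J x)) := rfl
    rw [e1, e2]
    set y := resolvent S z (J x) with hy
    have e3 : x - Q (K y) = z • Q y - T (Q y) := by
      have h5 : z • y - S y = J x := app1 hz (J x)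
      have h6 := h.right y
      rw [add_apply, map_add] at h6
      rw [← h6]
      have h7 : Q (z • y - S y) = x := by rw [h5, h.one]
      rw [map_sub, map_smul] at h7
      rw [← h7]
      abel
    rw [e3, app2 hzT]

/-- compressions to almost reducing subspaces are direct summands of small perturbations -/
theorem summ_of (hI : P_IDEAL) (J : X →L[ℂ] Y) (Q : Y →L[ℂ] X) (S : Y →L[ℂ] Y) (K Z : X →L[ℂ] X)
    (hQJ : Q.comp J = ContinuousLinearMap.id ℂ X) (hZ : Z = Q.comp (S.comp J) + K)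
    (hK : ApproxDecay K) (hD : ApproxDecay (S * J.comp Q - J.comp Q * S)) :
    ∃ K' : Y →L[ℂ] Y, ApproxDecay K' ∧ SummB J Q (S + K') Z := by
  have hone : ∀ x, Q (J x) = x := fun x => congrArg (fun L : X →L[ℂ] X => L x) hQJ
  set P : Y →L[ℂ] Y := J.comp Q with hP
  have hPx : ∀ y, P y = J (Q y) := fun y => rfl
  set D' : Y →L[ℂ] Y := S * P - P * S with hDd
  have hDx : ∀ y, D' y = S (P y) - P (S y) := fun y => by
    simp [hDd]
  set K' : Y →L[ℂ] Y := P.comp (D'.comp (1 - P)) + (-(1 - P)).comp (D'.comp P) +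
    J.comp (K.comp Q) with hK'
  have hK'd : ApproxDecay K' := by
    refine hI.2 Y _ _ (hI.2 Y _ _ ?_ ?_) ?_
    · exact hI.1 Y Y D' P (1 - P) hD
    · exact hI.1 Y Y D' (-(1 - P)) P hD
    · exact hI.1 X Y K J Q hK
  have hK'x : ∀ y, K' y = P (D' (y - P y)) - (D' (P y) - P (D' (P y))) + J (K (Q y)) := fun y => by
    simp [hK']
  have hPV : ∀ x, P (J x) = J x := fun x => by rw [hPx, hone]
  have hVP : ∀ y, Q (P y) = Q y := fun y => by rw [hPx, hone]
  have hZx : ∀ x, Z x = Q (S (J x)) + K x := fun x => by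
    rw [hZ]; rfl
  refine ⟨K', hK'd, hone, fun x => ?_, fun y => ?_⟩
  · rw [add_apply, hK'x, hPV, sub_self, map_zero, map_zero, hDx, hPV, hone, hZx, map_add, map_sub,
      ← hPx]
    have h1 : P (P (S (J x))) = P (S (J x)) := by rw [hPx (S (J x)), hPV]
    rw [h1]
    abel
  · have h0 : P (y - P y) = 0 := by
      have h2 : P (P y) = P y := by rw [hPx y, hPV]
      rw [map_sub, h2, sub_self]
    have h1 : Q (D' (y - P y)) = -Q (S y) + Q (S (P y)) := by
      rw [hDx, h0, map_zero, zero_sub, map_neg, hVP, map_sub, map_sub]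
      abel
    have h2 : Q (K' y) = Q (D' (y - P y)) + K (Q y) := by
      rw [hK'x, map_add, map_sub, hVP, map_sub _ (D' (P y)), hVP, sub_self, sub_zero, hone]
    rw [add_apply, map_add, h2, h1, hZx, ← hPx]
    abel

end Pool.Agent.J4.H86.HB
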