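import Pool.Agent.J4.H86.HB.SummB
import Pool.Agent.J4.H86.HB.Loc
import Pool.Agent.J4.H86.DZ.E3z
import Pool.Agent.J4.H86.CR.Area
import Pool.Agent.W991.HI.E5
import Pool.Agent.Y271.CO.Iso

/-!
Tame operators have hyperinvariant subspaces.
-/

set_option autoImplicit false

open Filter Topology Metric Set MeasureTheory
open scoped ENNReal

namespace Pool.Agent.J4.H86.HB

open Pool.Agent.W402.HI Pool.Agent.W706.HIR Pool.Agent.J4.H86.CR
open Pool.Agent.J4.H86.DZ (Fam growthZ)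

/-- cone growth and constant factors -/
theorem cone_const {N N' : ℂ → ℝ} {w d : ℂ} {A : ℕ} {M : ℝ} (hM : 1 ≤ M)
    (hN : ∀ z, N' z ≤ M * N z) (h : ConeGrowth N w d A) : ConeGrowth N' w d A := by
  intro θ hθ
  obtain ⟨C, r, hr, hz⟩ := h θ hθ
  refine ⟨C + Real.log M, min r 1, lt_min hr one_pos, ?_⟩
  intro z hzw hzr hc
  have h1 := hz z hzw (hzr.trans_le (min_le_left _ _)) hc
  have hpos : 0 < ‖z - w‖ := norm_pos_iff.mpr (sub_ne_zero.mpr hzw)
  have hlt : ‖z - w‖ ≤ 1 := (hzr.trans_le (min_le_right _ _)).le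
  have hpA : 0 < ‖z - w‖ ^ A := by positivity
  have hpA1 : ‖z - w‖ ^ A ≤ 1 := pow_le_one₀ hpos.le hlt
  have hlog : 0 ≤ Real.log M := Real.log_nonneg hM
  have h2 : Real.log M ≤ Real.log M / ‖z - w‖ ^ A := by
    rw [le_div_iff₀ hpA]
    nlinarith
  calc N' z ≤ M * N z := hN z
    _ ≤ M * Real.exp (C / ‖z - w‖ ^ A) := by gcongr
    _ = Real.exp (Real.log M) * Real.exp (C / ‖z - w‖ ^ A) := by
        rw [Real.exp_log (by linarith)]
    _ = Real.exp (C / ‖z - w‖ ^ A + Real.log M) := by rw [← Real.exp_add, add_comm]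
    _ ≤ Real.exp ((C + Real.log M) / ‖z - w‖ ^ A) := by
        apply Real.exp_le_exp.2
        rw [add_div]
        linarith

/-- tangents of the enlarged set -/
theorem tangent_enl {E B U : Set ℂ} (hU : IsOpen U) (hB : ∀ z ∈ B, z ∉ U) {w d : ℂ} (hw : w ∈ U)
    (h : TangentAt E w d) : TangentAt (E ∪ B) w d := by
  obtain ⟨ρ, hρ, hball⟩ := Metric.isOpen_iff.1 hU w hw
  intro θ hθ
  obtain ⟨r, hr, hz⟩ := h θ hθ
  refine ⟨min r ρ, lt_min hr hρ, ?_⟩
  rintro z (hzE | hzB) hzr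
  · exact hz z hzE (hzr.trans_le (min_le_left _ _))
  · exfalso
    apply hB z hzB
    apply hball
    rw [mem_ball, dist_eq_norm]
    exact hzr.trans_le (min_le_right _ _)

theorem diff_res {Y : Type} [NormedAddCommGroup Y] [NormedSpace ℂ Y] [CompleteSpace Y]
    (T : Y →L[ℂ] Y) (U : Set ℂ) (h : ∀ z ∈ U, z ∈ resolventSet ℂ T) :
    DifferentiableOn ℂ (fun z => resolvent T z) U := by
  intro z hz
  have h1 : DifferentiableAt ℂ (resolvent T) z :=
    (spectrum.hasDerivAt_resolvent_const_left (h z hz)).differentiableAt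
  exact h1.differentiableWithinAt

theorem far {Y : Type} [NormedAddCommGroup Y] [NormedSpace ℂ Y] [CompleteSpace Y] (S : Y →L[ℂ] Y) :
    ∃ R : ℝ, ∀ z : ℂ, R < ‖z‖ → z ∈ resolventSet ℂ S ∧ ‖resolvent S z‖ ≤ 1 := by
  have hev : ∀ᶠ z in Bornology.cobounded ℂ, ‖resolvent S z‖ < 1 := by
    have := (spectrum.resolvent_tendsto_cobounded (𝕜 := ℂ) S).norm
    rw [norm_zero] at this
    exact this.eventually (gt_mem_nhds one_pos)
  have hbdd : Bornology.IsBounded {z : ℂ | ¬ ‖resolvent S z‖ < 1} := by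
    rw [Bornology.isBounded_def]
    filter_upwards [hev] with z hz h
    exact h hz
  obtain ⟨R₁, hR₁⟩ := hbdd.exists_norm_le
  refine ⟨max R₁ (‖S‖ * ‖(1 : Y →L[ℂ] Y)‖), fun z hz => ⟨?_, ?_⟩⟩
  · exact spectrum.mem_resolventSet_of_norm_lt_mul ((le_max_right _ _).trans_lt hz)
  · by_contra h
    have h1 := hR₁ z (by
      change ¬ ‖resolvent S z‖ < 1
      intro h2
      exact h h2.le)
    exact absurd hz (not_lt.2 (h1.trans (le_max_left _ _)))

/-- the family of the perturbed operators -/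
theorem fam {X Y : Type} [NormedAddCommGroup X] [NormedSpace ℂ X] [CompleteSpace X]
    [NormedAddCommGroup Y] [NormedSpace ℂ Y] [CompleteSpace Y] {J : X →L[ℂ] Y} {Q : Y →L[ℂ] X}
    {S K' : Y →L[ℂ] Y} {Z : X →L[ℂ] X} (hsum : SummB J Q (S + K') Z) {E : Set ℂ} {C' : ℝ} {p : ℕ}
    (hEc : IsClosed E) (hEne : E.Nonempty) (hpert : Pert S K' E C' p)
    (hZE : ∀ z, z ∉ E → z ∈ resolventSet ℂ Z) {M : ℝ} (hM : 0 < M) (hM' : ‖Q‖ * ‖J‖ ≤ M) :
    Fam S E p (fun z => ((M⁻¹ : ℝ) : ℂ) • resolvent Z z) := by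
  intro z₀ hz₀
  have hzr := hZE z₀ hz₀
  have hd : 0 < infDist z₀ E := (hEc.notMem_iff_infDist_pos hEne).1 hz₀
  obtain ⟨G, hG1, -, -, hG4⟩ := hpert (min 1 (infDist z₀ E)) (lt_min one_pos hd) (min_le_left _ _)
  obtain ⟨g1, g2, -⟩ := hG4 z₀ (min_le_right _ _)
  have hu := (W125.HI.neumann S (K' - G) z₀ g1 g2).1
  set A : Y →L[ℂ] Y := algebraMap ℂ (Y →L[ℂ] Y) z₀ - (S + K') with hA
  set P : Y →L[ℂ] Y := J.comp Q with hP
  set Rz := resolvent Z z₀ with hRz
  have hR1' : ∀ x, z₀ • Rz x - Z (Rz x) = x := fun x => app1 hzr x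
  have hR2' : ∀ x, Rz (z₀ • x - Z x) = x := fun x => app2 hzr x
  set B : Y →L[ℂ] Y := J.comp (Rz.comp Q) with hB
  have hAx : ∀ x, A x = z₀ • x - (S + K') x := fun x => by
    simp [hA, Algebra.algebraMap_eq_smul_one]
  have hPx : ∀ x, P x = J (Q x) := fun x => rfl
  have hBx : ∀ x, B x = J (Rz (Q x)) := fun x => rfl
  have hAJ : ∀ x, A (J x) = J (z₀ • x - Z x) := by
    intro x
    rw [hAx, hsum.left, map_sub, map_smul]
  have hJA : ∀ x, Q (A x) = z₀ • Q x - Z (Q x) := by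
    intro x
    rw [hAx, map_sub, map_smul, hsum.right]
  obtain ⟨F₀, hF1, hF2, hF3, hF4⟩ := idx A
    (algebraMap ℂ (Y →L[ℂ] Y) z₀ - (S + (K' - G))) (-G) P B
    (by rw [hA]; abel) hu
    (by
      refine Submodule.finiteDimensional_of_le (S₂ := LinearMap.range (G : Y →ₗ[ℂ] Y)) ?_
      rintro _ ⟨x, rfl⟩
      exact ⟨-x, by simp⟩)
    (by
      ext x
      rw [mul_apply_eq_comp, hPx, hPx, hsum.one])
    (by
      ext x
      rw [mul_apply_eq_comp, mul_apply_eq_comp, hPx, hAJ, hPx, hJA])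
    (by
      ext x
      rw [mul_apply_eq_comp, hBx, hAJ, hR1', hPx])
    (by
      ext x
      rw [mul_apply_eq_comp, hBx, hJA, hR2', hPx])
    (by
      ext x
      rw [mul_apply_eq_comp, hPx, hBx, hsum.one])
    (by
      ext x
      rw [mul_apply_eq_comp, hBx, hBx, hPx, hsum.one])
  have hFJ : ∀ x, F₀ (J x) = 0 := by
    intro x
    have h1 := congrArg (fun L : Y →L[ℂ] Y => L (J x)) hF2
    simp only [mul_apply_eq_comp, hPx, hsum.one] at h1
    exact h1
  have hJF₀ : ∀ x, Q (F₀ x) = 0 := by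
    intro x
    have h1 := congrArg (fun L : Y →L[ℂ] Y => L x) hF1
    simp only [mul_apply_eq_comp, hPx] at h1
    have h2 := congrArg Q h1
    rw [hsum.one] at h2
    rw [h2]
    simp
  have hfin : FiniteDimensional ℂ (LinearMap.range ((-F₀ : Y →L[ℂ] Y) : Y →ₗ[ℂ] Y)) := by
    refine Submodule.finiteDimensional_of_le (S₂ := LinearMap.range (F₀ : Y →ₗ[ℂ] Y)) ?_
    rintro _ ⟨x, rfl⟩
    exact ⟨-x, by simp⟩
  obtain ⟨C'', hpert'⟩ := pert_add hpert hfin
  have hJ'' : SummB J Q (S + (K' + -F₀)) Z := by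
    refine ⟨hsum.one, fun x => ?_, fun x => ?_⟩
    · have h1 := hsum.left x
      have h2 : (S + (K' + -F₀)) (J x) = (S + K') (J x) - F₀ (J x) := by
        simp only [add_apply, neg_apply]
        abel
      rw [h2, hFJ, sub_zero, h1]
    · have h1 := hsum.right x
      have h2 : (S + (K' + -F₀)) x = (S + K') x - F₀ x := by
        simp only [add_apply, neg_apply]
        abel
      rw [h2, map_sub, hJF₀, sub_zero, h1]
  refine ⟨K' + -F₀, C'', hpert', ?_, ?_⟩
  · have h1 : algebraMap ℂ (Y →L[ℂ] Y) z₀ - (S + (K' + -F₀)) = A + F₀ := by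
      rw [hA]; abel
    rw [spectrum.mem_resolventSet_iff, h1]
    exact hF3
  · intro z hzE hz
    change ‖((M⁻¹ : ℝ) : ℂ) • resolvent Z z‖ ≤ ‖resolvent (S + (K' + -F₀)) z‖
    rw [(hJ''.res hz).2, norm_smul, Complex.norm_real, Real.norm_of_nonneg (by positivity)]
    have h1 := comp_norm J Q (resolvent (S + (K' + -F₀)) z)
    calc M⁻¹ * ‖Q.comp ((resolvent (S + (K' + -F₀)) z).comp J)‖
        ≤ M⁻¹ * (M * ‖resolvent (S + (K' + -F₀)) z‖) := by
          gcongr
          exact h1.trans (mul_le_mul_of_nonneg_right hM' (norm_nonneg _))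
      _ = ‖resolvent (S + (K' + -F₀)) z‖ := by
          rw [← mul_assoc, inv_mul_cancel₀ hM.ne', one_mul]

theorem tame (hI : P_IDEAL) : P_TAME := by
  intro X _ _ _ Z hZt
  obtain ⟨Y, iY1, iY2, iY3, J, Q, S, K, γ, L, U, C, k, hQJ, hZ, hK, hD, hγ, hU, hSU, c₀, hc₀U,
    hc₀⟩ := hZt
  obtain ⟨K', hK'd, hsum⟩ := summ_of hI J Q S K Z hQJ hZ hK hD
  set G : Set ℂ := γ '' Icc 0 1 with hG
  have hGc : IsCompact G := isCompact_Icc.image hγ.continuous
  have hGne : G.Nonempty := ⟨γ 0, 0, by simp, rfl⟩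
  by_contra hcon
  push Not at hcon
  obtain ⟨hns, hnh⟩ := hcon
  -- the enlarged set
  obtain ⟨R₁, hR₁⟩ := far S
  obtain ⟨R₂, hR₂⟩ := far Z
  set R : ℝ := max R₁ R₂ with hR
  set B : Set ℂ := closedBall 0 R \ U with hB
  set E : Set ℂ := G ∪ B with hE
  have hBc : IsCompact B := (isCompact_closedBall _ _).diff hU
  have hEc : IsCompact E := hGc.union hBc
  have hEne : E.Nonempty := hGne.mono subset_union_left
  have hBU : ∀ z ∈ B, z ∉ U := fun z hz => hz.2
  have hE5 := Pool.Agent.W991.HI.E5.main Y S K' E hEc hEne hK'd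
  have hKc : IsCompactOperator K' := hE5.1
  have hUZ : ∀ z ∈ U, z ∉ G → z ∈ resolventSet ℂ Z := by
    intro z hz hzG
    by_contra h
    rcases hsum.point hKc (hSU z hz hzG).1 h with h1 | h1
    · exact hns h1
    · exact hnh h1
  have hcase : ∀ z, z ∉ E → z ∉ G ∧ (z ∈ U ∨ R < ‖z‖) := by
    intro z hz
    refine ⟨fun h => hz (Or.inl h), ?_⟩
    by_contra h
    push Not at h
    exact hz (Or.inr ⟨by rw [mem_closedBall, dist_zero_right]; exact h.2, h.1⟩)
  have hSE : ∀ z, z ∉ E → z ∈ resolventSet ℂ S := by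
    intro z hz
    obtain ⟨h1, h2 | h2⟩ := hcase z hz
    · exact (hSU z h2 h1).1
    · exact (hR₁ z ((le_max_left _ _).trans_lt h2)).1
  have hZE : ∀ z, z ∉ E → z ∈ resolventSet ℂ Z := by
    intro z hz
    obtain ⟨h1, h2 | h2⟩ := hcase z hz
    · exact hUZ z h2 h1
    · exact (hR₂ z ((le_max_right _ _).trans_lt h2)).1
  have hSg : ∃ (C' : ℝ) (k : ℕ), ∀ z, z ∉ E → infDist z E ≤ 1 →
      ‖resolvent S z‖ ≤ C' / infDist z E ^ k := by
    refine ⟨max |C| 1, k, fun z hz hz1 => ?_⟩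
    have hd : 0 < infDist z E := (hEc.isClosed.notMem_iff_infDist_pos hEne).1 hz
    have hdk : 0 < infDist z E ^ k := by positivity
    obtain ⟨h1, h2 | h2⟩ := hcase z hz
    · have h3 := (hSU z h2 h1).2
      have h4 : infDist z E ≤ infDist z G := infDist_le_infDist_of_subset subset_union_left hGne
      calc ‖resolvent S z‖ ≤ C / infDist z G ^ k := h3
        _ ≤ |C| / infDist z G ^ k :=
            div_le_div_of_nonneg_right (le_abs_self C) (pow_nonneg infDist_nonneg k)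
        _ ≤ |C| / infDist z E ^ k := by gcongr
        _ ≤ max |C| 1 / infDist z E ^ k := by
            gcongr
            exact le_max_left _ _
    · have h3 := (hR₁ z ((le_max_left _ _).trans_lt h2)).2
      calc ‖resolvent S z‖ ≤ 1 := h3
        _ ≤ 1 / infDist z E ^ k := by
            rw [le_div_iff₀ hdk, one_mul]
            exact pow_le_one₀ hd.le hz1
        _ ≤ max |C| 1 / infDist z E ^ k := by
            gcongr
            exact le_max_right _ _
  obtain ⟨C', p, hpert⟩ := hE5.2 hSE hSg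
  set M : ℝ := 1 + ‖Q‖ * ‖J‖ with hM
  have hM1 : 1 ≤ M := by
    have : 0 ≤ ‖Q‖ * ‖J‖ := by positivity
    linarith
  have hM0 : 0 < M := by linarith
  have hfam := fam hsum hEc.isClosed hEne hpert hZE hM0 (by rw [hM]; linarith)
  have hdiff : DifferentiableOn ℂ (fun z => ((M⁻¹ : ℝ) : ℂ) • resolvent Z z) Eᶜ :=
    (diff_res Z Eᶜ fun z hz => hZE z hz).const_smul ((M⁻¹ : ℝ) : ℂ)
  have hgr := growthZ S E p _ hdiff hfam
  by_cases hnt : (spectrum ℂ Z ∩ U).Nontrivial
  · apply hnh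
    refine loc X Z γ L U hγ hU hUZ hnt ⟨2 * p + 19, fun w hwU hwG d hd ht => ?_⟩
    have h1 := hgr w (Or.inl hwG) d hd (tangent_enl hU hBU hwU ht)
    refine cone_const hM1 (fun z => ?_) h1
    change ‖resolvent Z z‖ ≤ M * ‖((M⁻¹ : ℝ) : ℂ) • resolvent Z z‖
    rw [norm_smul, Complex.norm_real, Real.norm_of_nonneg (by positivity), ← mul_assoc,
      mul_inv_cancel₀ hM0.ne', one_mul]
  · rw [Set.not_nontrivial_iff] at hnt
    by_cases hother : ∃ c' ∈ spectrum ℂ Z, c' ≠ c₀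
    · obtain ⟨c', hc', hne⟩ := hother
      apply hnh
      exact Pool.Agent.Y271.CO.isolated Z hc₀ hc' hne hU hc₀U fun z hz hzU =>
        hnt ⟨hz, hzU⟩ ⟨hc₀, hc₀U⟩
    · push Not at hother
      have hs : spectrum ℂ Z = {c₀} := by
        apply Set.eq_singleton_iff_unique_mem.2
        exact ⟨hc₀, hother⟩
      obtain ⟨r, hr, hball⟩ := Metric.isOpen_iff.1 hU c₀ hc₀U
      set C₂ : ℝ := ‖Q‖ * ‖J‖ * |C| with hC₂
      have hC₂0 : 0 ≤ C₂ := by positivity
      set σ : ℝ := 1 / (2 * ((k:ℝ) + 1)) with hσ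
      have hσ0 : 0 < σ := by positivity
      have hσ1 : σ ≤ 1 := by
        rw [hσ, div_le_one (by positivity)]
        have : (0:ℝ) ≤ k := Nat.cast_nonneg k
        linarith
      have hnull : volume G = 0 := curve_null γ L hγ
      rcases one_point hs hσ0 hσ1 (fun z => C₂ / (min 1 (infDist z G)) ^ k) r hr (by
        have h1 : ∀ᵐ z ∂(volume : Measure ℂ), z ∉ G := by
          rw [ae_iff]
          simpa using hnull
        rw [ae_restrict_iff' measurableSet_ball]
        filter_upwards [h1] with z hz hzb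
        have hzU := hball hzb
        obtain ⟨h2, h3⟩ := hSU z hzU hz
        obtain ⟨K₁, hK₁, h4⟩ := hsum.calkin hKc h2 (hUZ z hzU hz)
        refine ⟨K₁, hK₁, ?_⟩
        rw [h4]
        have hd : 0 < infDist z G := (hGc.isClosed.notMem_iff_infDist_pos hGne).1 hz
        have hm : 0 < min 1 (infDist z G) := lt_min one_pos hd
        calc ‖Q.comp ((resolvent S z).comp J)‖ ≤ ‖Q‖ * ‖J‖ * ‖resolvent S z‖ := comp_norm J Q _
          _ ≤ ‖Q‖ * ‖J‖ * (|C| / (min 1 (infDist z G)) ^ k) := by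
              gcongr
              calc ‖resolvent S z‖ ≤ C / infDist z G ^ k := h3
                _ ≤ |C| / infDist z G ^ k :=
                    div_le_div_of_nonneg_right (le_abs_self C) (pow_nonneg infDist_nonneg k)
                _ ≤ |C| / (min 1 (infDist z G)) ^ k := by
                    gcongr
                    exact min_le_right _ _
          _ = C₂ / (min 1 (infDist z G)) ^ k := by rw [hC₂]; ring) (by
        refine ne_top_of_le_ne_top (pow_integrable γ L hγ C₂ hC₂0 k (‖c₀‖ + r))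
          (lintegral_mono_set ?_)
        intro z hz
        rw [mem_ball, dist_eq_norm] at hz
        rw [mem_ball, dist_zero_right]
        calc ‖z‖ = ‖(z - c₀) + c₀‖ := by rw [sub_add_cancel]
          _ ≤ ‖z - c₀‖ + ‖c₀‖ := norm_add_le _ _
          _ < ‖c₀‖ + r := by linarith) with h1 | h1
      · exact hns h1
      · exact hnh h1

end Pool.Agent.J4.H86.HB
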